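import Pool.Agent.Helper27.HV.V2S

/-! Sheet HV: general bound for the second derivative of the potential, and row V2I. -/

set_option autoImplicit false

namespace Pool.Agent.Helper27.HV

open MeasureTheory Filter Pool.Agent.Helper95.PW Pool.Agent.Helper95.LN Pool.Agent.Helper95.CF
open Pool.Agent.Helper95.HV Pool.Agent.Helper53.LN
open Pool.Agent.Helper82.PN (pgb_tri)

variable {n M : ℕ}

noncomputable def SA (a q : Fin n → R3) (x : Cf n) (k l : Fin n) : ℝ :=
  Tq (x k - x l) (a k) (a k) - (∑ i, q k i * (x k i - x l i)) / nr (x k - x l) ^ 3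

noncomputable def NA (X : Fin M → R3) (a q : Fin n → R3) (x : Cf n) (k : Fin n)
    (j : Fin M) : ℝ :=
  Tq (x k - X j) (a k) (a k) - (∑ i, q k i * (x k i - X j i)) / nr (x k - X j) ^ 3

noncomputable def PA (a q : Fin n → R3) (x : Cf n) (k l : Fin n) : ℝ :=
  Tq (x k - x l) (a k - a l) (a k - a l) -
      (∑ i, (q k i - q l i) * (x k i - x l i)) / nr (x k - x l) ^ 3

noncomputable def DD (X : Fin M → R3) (Z : Fin M → ℝ) (a q : Fin n → R3) (x : Cf n) : ℝ :=
  (∑ k, ∑ l, if k < l then PA a q x k l else 0) - ∑ k, ∑ j, Z j * NA X a q x k j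

theorem D2_DD (X : Fin M → R3) (Z : Fin M → ℝ) (g : R3 → ℝ) (x : Cf n) :
    D2 X Z g x = DD X Z (fun k => gv g (x k)) (fun k => gq g (x k)) x := by
  unfold D2 DD PA NA
  rw [sub_eq_add_neg, ← Finset.sum_neg_distrib]
  congr 1
  refine Finset.sum_congr rfl fun k _ => ?_
  rw [← Finset.sum_neg_distrib]
  refine Finset.sum_congr rfl fun j _ => ?_
  ring

theorem SA_self (a q : Fin n → R3) (x : Cf n) (k : Fin n) : SA a q x k k = 0 := by
  unfold SA
  rw [sub_self, tq_z]
  simp

theorem PA_eq (a q : Fin n → R3) (x : Cf n) (k l : Fin n) :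
    PA a q x k l = SA a q x k l + SA a q x l k - 2 * Tq (x k - x l) (a k) (a l) := by
  unfold PA SA
  rw [tq_sub, tq_sym' (x l) (x k), VIR_sym (x l) (x k)]
  simp only [Fin.sum_univ_three]
  ring

theorem DD_dec (X : Fin M → R3) (Z : Fin M → ℝ) (a q : Fin n → R3) (d : ℝ) (x : Cf n) :
    DD X Z a q x = (∑ k, ∑ l, if k < l then ww X d x k l * PA a q x k l else 0) +
      ∑ k, (∑ l, (1 - ww X d x k l) * SA a q x k l - ∑ j, Z j * NA X a q x k j) -
      2 * ∑ k, ∑ l, if k < l then (1 - ww X d x k l) *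
        Tq (x k - x l) (a k) (a l) else 0 := by
  have e2 := VIR_pairs (fun k l => (1 - ww X d x k l) * SA a q x k l)
    (fun k => by simp only [SA_self, mul_zero])
  unfold DD
  rw [Finset.sum_sub_distrib, ← e2, Finset.mul_sum]
  have e3 : ∀ k, ∑ l, (if k < l then PA a q x k l else 0) =
      (∑ l, if k < l then ww X d x k l * PA a q x k l else 0) +
      (∑ l, if k < l then (1 - ww X d x k l) * SA a q x k l +
        (1 - ww X d x l k) * SA a q x l k else 0) -
      2 * ∑ l, (if k < l then (1 - ww X d x k l) *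
        Tq (x k - x l) (a k) (a l) else 0) := by
    intro k
    rw [Finset.mul_sum, ← Finset.sum_add_distrib, ← Finset.sum_sub_distrib]
    refine Finset.sum_congr rfl fun l _ => ?_
    split_ifs
    · rw [ww_symm X d x l k]
      have := PA_eq a q x k l
      linear_combination (1 - ww X d x k l) * this
    · ring
  rw [Finset.sum_congr rfl fun k _ => e3 k, Finset.sum_sub_distrib, Finset.sum_add_distrib]
  ring

theorem farA_id (X : Fin M → R3) (Z : Fin M → ℝ) (a q : Fin n → R3) (d : ℝ) (x : Cf n)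
    (k : Fin n) (i : Fin M) :
    ∑ l, (1 - sw X (3 / 2 * d) x i l) * SA a q x k l - ∑ j, Z j * NA X a q x k j =
      ((∑ l, if nr (x l - X i) < 3 / 2 * d then 0 else Tq (x k - x l) (a k) (a k)) -
        ∑ j, if j = i then 0 else Z j * Tq (x k - X j) (a k) (a k)) -
      (∑ m, q k m * farE d X Z x i m (x k)) - Z i * NA X a q x k i := by
  have e1 : ∑ m, q k m * farE d X Z x i m (x k) =
      (∑ l, if nr (x l - X i) < 3 / 2 * d then 0 else
        (∑ i, q k i * (x k i - x l i)) / nr (x k - x l) ^ 3) -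
      ∑ j, if j = i then 0 else
        Z j * ((∑ i, q k i * (x k i - X j i)) / nr (x k - X j) ^ 3) := by
    unfold farE
    simp only [mul_sub, Finset.sum_sub_distrib, Finset.mul_sum]
    congr 1
    · rw [Finset.sum_comm]
      refine Finset.sum_congr rfl fun l _ => ?_
      split_ifs
      · simp
      · simp only [Fin.sum_univ_three]
        ring
    · rw [Finset.sum_comm]
      refine Finset.sum_congr rfl fun j _ => ?_
      split_ifs
      · simp
      · simp only [Fin.sum_univ_three]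
        ring
  have e2 : ∑ l, (1 - sw X (3 / 2 * d) x i l) * SA a q x k l =
      (∑ l, if nr (x l - X i) < 3 / 2 * d then 0 else Tq (x k - x l) (a k) (a k)) -
      (∑ l, if nr (x l - X i) < 3 / 2 * d then 0 else
        (∑ i, q k i * (x k i - x l i)) / nr (x k - x l) ^ 3) := by
    rw [← Finset.sum_sub_distrib]
    refine Finset.sum_congr rfl fun l _ => ?_
    unfold sw SA
    split_ifs <;> ring
  have e3 : ∑ j, Z j * NA X a q x k j = Z i * NA X a q x k i +
      ((∑ j, if j = i then 0 else Z j * Tq (x k - X j) (a k) (a k)) -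
      ∑ j, if j = i then 0 else
        Z j * ((∑ i, q k i * (x k i - X j i)) / nr (x k - X j) ^ 3)) := by
    have h1 : ∀ j, Z j * NA X a q x k j = (if j = i then Z i * NA X a q x k i else 0) +
        ((if j = i then 0 else Z j * Tq (x k - X j) (a k) (a k)) -
        (if j = i then 0 else
        Z j * ((∑ i, q k i * (x k i - X j i)) / nr (x k - X j) ^ 3))) := by
      intro j
      split_ifs with h
      · subst h
        ring
      · unfold NA
        ring
    rw [Finset.sum_congr rfl (fun j _ => h1 j), Finset.sum_add_distrib, Finset.sum_sub_distrib]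
    simp
  linarith

/-- near pairs -/
theorem nearA (h4 : ST_KK) {X : Fin M → R3} {d : ℝ} (hd : 0 < d) (hS : Sep X d)
    {a q : Fin n → R3} {A : ℝ} (hA0 : 0 ≤ A) {x : Cf n} (hx : Dist X x)
    (hP : ∀ k l, nr (x k - x l) ≠ 0 → PA a q x k l ≤ A * (1 / nr (x k - x l))) :
    (∑ k, ∑ l, if k < l then ww X d x k l * PA a q x k l else 0) ≤
      A * (Rem (d / 8) x + 16 / d * ∑ i, cnt X (3 / 2 * d) x i ^ 2) := by
  rw [← ww_sum]
  unfold Rem
  rw [Finset.mul_sum, ← Finset.sum_add_distrib, Finset.mul_sum]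
  refine Finset.sum_le_sum fun k _ => ?_
  rw [Finset.mul_sum, ← Finset.sum_add_distrib, Finset.mul_sum]
  refine Finset.sum_le_sum fun l _ => ?_
  have hN0 := ww_nonneg X d x k l
  have hN1 := ww_le hd hS x k l
  set N := ww X d x k l with hNdef
  have hd16 : 0 < 16 / d := by positivity
  by_cases hkl : k < l
  · rw [if_pos hkl, if_pos hkl]
    have hr0 := hx.1 k l hkl.ne
    have hr : 0 < nr (x k - x l) := lt_of_le_of_ne (VIR_nr0 _) (Ne.symm hr0)
    have hP := hP k l hr0
    obtain ⟨-, hK2, hK3, hK4⟩ := h4 (d / 8) (x k - x l) (by positivity)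
    have hK2' := hK2 hr0
    have e16 : 2 / (d / 8) = 16 / d := by
      field_simp
      norm_num
    rw [e16] at hK4
    have h7 : N * PA a q x k l ≤ N * (A * (1 / nr (x k - x l))) :=
      mul_le_mul_of_nonneg_left hP hN0
    refine h7.trans ?_
    have h8 : N * (1 / nr (x k - x l)) ≤
        1 / nr (x k - x l) - Kf (d / 8) (x k - x l) + 16 / d * N := by
      have h9 : N * (1 / nr (x k - x l) - Kf (d / 8) (x k - x l)) ≤
          1 * (1 / nr (x k - x l) - Kf (d / 8) (x k - x l)) :=
        mul_le_mul_of_nonneg_right hN1 (by linarith)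
      have h10 : N * Kf (d / 8) (x k - x l) ≤ N * (16 / d) :=
        mul_le_mul_of_nonneg_left hK4 hN0
      linarith
    have h11 := mul_le_mul_of_nonneg_left h8 hA0
    linarith
  · rw [if_neg hkl, if_neg hkl]
    have : 0 ≤ A * (0 + 16 / d * N) := by positivity
    exact this

/-- one electron -/
theorem oneA {X : Fin M → R3} {d K B C3 : ℝ} (hd : 0 < d) (hS : Sep X d)
    {Z : Fin M → ℝ} {a q : Fin n → R3} {x : Cf n} (hC3 : 0 < C3)
    (ha : ∀ k m, |a k m| ≤ K) (hq : ∀ k m, |q k m| ≤ B)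
    (hout : ∀ k, (∀ i, d / 2 < nr (x k - X i)) → a k = 0 ∧ q k = 0)
    {e : Fin M → ℝ} (he : ∀ i m y, nr (y - X i) ≤ d → |farE d X Z x i m y| ≤ e i)
    (hF : ∀ i (v w y : R3), (∀ m, |v m| ≤ K) → (∀ m, |w m| ≤ K) → nr (y - X i) ≤ d / 2 →
      |(∑ l, if nr (x l - X i) < 3 / 2 * d then 0 else Tq (y - x l) v w) -
        ∑ j, if j = i then 0 else Z j * Tq (y - X j) v w| ≤ C3 * K ^ 2 * e i) (k : Fin n) :
    ∑ l, (1 - ww X d x k l) * SA a q x k l - ∑ j, Z j * NA X a q x k j ≤
      ∑ i, sw X (3 / 2 * d) x i k * ((C3 * K ^ 2 + 3 * B) * e i) -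
        ∑ i, (if nr (x k - X i) ≤ d / 2 then Z i * NA X a q x k i else 0) := by
  have hB : 0 ≤ B := (abs_nonneg _).trans (hq k 0)
  have he0 : ∀ i, 0 ≤ e i := by
    intro i
    refine le_trans (abs_nonneg _) (he i 0 (X i) ?_)
    rw [sub_self]
    have : nr (0 : R3) = 0 := by simp [nr]
    rw [this]
    exact hd.le
  by_cases h : ∀ i, d / 2 < nr (x k - X i)
  · obtain ⟨h1, h2⟩ := hout k h
    have h3 : ∀ l, SA a q x k l = 0 := by
      intro l
      unfold SA
      rw [h1, h2, tq_zl]
      simp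
    have h4 : ∀ j, NA X a q x k j = 0 := by
      intro j
      unfold NA
      rw [h1, h2, tq_zl]
      simp
    simp only [h3, h4, mul_zero, Finset.sum_const_zero, sub_zero, ite_self]
    exact Finset.sum_nonneg fun i _ => mul_nonneg (sw_nonneg _ _ _ _ _)
      (mul_nonneg (by positivity) (he0 i))
  · push Not at h
    obtain ⟨i, hi1⟩ := h
    have hi : nr (x k - X i) < 3 / 2 * d := by linarith
    have e0 : ∑ l, (1 - ww X d x k l) * SA a q x k l =
        ∑ l, (1 - sw X (3 / 2 * d) x i l) * SA a q x k l :=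
      Finset.sum_congr rfl fun l _ => by rw [ww_eq hd hS hi l]
    have e1 : ∑ i, (if nr (x k - X i) ≤ d / 2 then Z i * NA X a q x k i else 0) =
        Z i * NA X a q x k i := by
      rw [Finset.sum_eq_single i, if_pos hi1]
      · intro j _ hj
        rw [if_neg]
        intro h
        have h1 := hS j i hj
        have h2 := pgb_tri (X j) (X i) (x k)
        linarith
      · intro h
        exact absurd (Finset.mem_univ _) h
    have e2 : ∑ i, sw X (3 / 2 * d) x i k * ((C3 * K ^ 2 + 3 * B) * e i) =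
        (C3 * K ^ 2 + 3 * B) * e i := by
      rw [Finset.sum_eq_single i]
      · have : sw X (3 / 2 * d) x i k = 1 := by
          unfold sw
          rw [if_pos hi]
        rw [this, one_mul]
      · intro j _ hj
        rw [sw_other hd hS hi hj, zero_mul]
      · intro h
        exact absurd (Finset.mem_univ _) h
    rw [e0, e1, e2, farA_id X Z a q d x k i]
    have b1 := (abs_le.1 (hF i (a k) (a k) (x k) (ha k) (ha k) hi1)).2
    have b2 : -(∑ m, q k m * farE d X Z x i m (x k)) ≤ 3 * B * e i := by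
      have hm : ∀ m, -(q k m * farE d X Z x i m (x k)) ≤ B * e i := by
        intro m
        refine (neg_le_abs _).trans ?_
        rw [abs_mul]
        exact mul_le_mul (hq k m) (he i m _ (by linarith)) (abs_nonneg _) hB
      rw [Fin.sum_univ_three]
      linarith [hm 0, hm 1, hm 2]
    linarith

/-- cross terms -/
theorem crossA {X : Fin M → R3} {d : ℝ} (hd : 0 < d) (hS : Sep X d) {a : Fin n → R3}
    {x : Cf n} (hout : ∀ k, (∀ i, d / 2 < nr (x k - X i)) → a k = 0) :
    (∑ k, ∑ l, if k < l then (1 - ww X d x k l) * Tq (x k - x l) (a k) (a l) else 0) =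
      ∑ k, ∑ l, if k < l ∧ d < nr (x k - x l) then Tq (x k - x l) (a k) (a l) else 0 := by
  refine Finset.sum_congr rfl fun k _ => Finset.sum_congr rfl fun l _ => ?_
  by_cases hkl : k < l
  · rw [if_pos hkl]
    by_cases hk : ∀ i, d / 2 < nr (x k - X i)
    · rw [hout k hk, tq_zl]
      simp
    · by_cases hl : ∀ i, d / 2 < nr (x l - X i)
      · rw [hout l hl, tq_zr]
        simp
      · push Not at hk hl
        obtain ⟨i, hi1⟩ := hk
        obtain ⟨i', hi1'⟩ := hl
        have hi : nr (x k - X i) < 3 / 2 * d := by linarith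
        rw [ww_eq hd hS hi l]
        by_cases hii : i' = i
        · subst hii
          have h1 : sw X (3 / 2 * d) x i' l = 1 := by
            unfold sw
            rw [if_pos (by linarith)]
          have h2 := pgb_tri (x k) (x l) (X i')
          rw [VIR_sym (X i') (x k), VIR_sym (X i') (x l)] at h2
          rw [h1, if_neg (by rintro ⟨-, h3⟩; linarith)]
          ring
        · have h1 : sw X (3 / 2 * d) x i l = 0 :=
            sw_other hd hS (i := i') (by linarith) (fun h => hii h.symm)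
          have h2 : d < nr (x k - x l) := by
            have h3 := hS i i' (fun h => hii h.symm)
            have h4 := pgb_tri (X i) (X i') (x k)
            have h5 := pgb_tri (x k) (X i') (x l)
            have h6 := VIR_sym (x l) (x k)
            linarith
          rw [h1, if_pos ⟨hkl, h2⟩]
          ring
  · rw [if_neg hkl, if_neg (fun h => hkl h.1)]

/-- general bound -/
theorem gen (h5 : ST_KK) {X : Fin M → R3} {d K B C3 A : ℝ} (hd : 0 < d) (hS : Sep X d)
    {Z : Fin M → ℝ} {a q : Fin n → R3} {x : Cf n} (hC3 : 0 < C3) (hA0 : 0 ≤ A)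
    (hx : Dist X x)
    (hP : ∀ k l, nr (x k - x l) ≠ 0 → PA a q x k l ≤ A * (1 / nr (x k - x l)))
    (ha : ∀ k m, |a k m| ≤ K) (hq : ∀ k m, |q k m| ≤ B)
    (hout : ∀ k, (∀ i, d / 2 < nr (x k - X i)) → a k = 0 ∧ q k = 0)
    {e : Fin M → ℝ} (he : ∀ i m y, nr (y - X i) ≤ d → |farE d X Z x i m y| ≤ e i)
    (hF : ∀ i (v w y : R3), (∀ m, |v m| ≤ K) → (∀ m, |w m| ≤ K) → nr (y - X i) ≤ d / 2 →
      |(∑ l, if nr (x l - X i) < 3 / 2 * d then 0 else Tq (y - x l) v w) -
        ∑ j, if j = i then 0 else Z j * Tq (y - X j) v w| ≤ C3 * K ^ 2 * e i) {T : ℝ}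
    (hT : -(∑ k, ∑ l, if k < l ∧ d < nr (x k - x l) then Tq (x k - x l) (a k) (a l) else 0) ≤
      T) (hB : 0 ≤ B) :
    DD X Z a q x ≤ A * (Rem (d / 8) x + 16 / d * ∑ i, cnt X (3 / 2 * d) x i ^ 2) +
      (C3 * K ^ 2 + 3 * B) * (∑ i, cnt X (3 / 2 * d) x i ^ 2 + ∑ i, e i ^ 2) + 2 * T -
      ∑ k, ∑ i, (if nr (x k - X i) ≤ d / 2 then Z i * NA X a q x k i else 0) := by
  have b1 := nearA h5 hd hS hA0 hx hP
  have b2 := Finset.sum_le_sum fun k (_ : k ∈ Finset.univ) =>
    oneA (Z := Z) hd hS hC3 ha hq hout he hF k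
  have b3 : ∑ k, ∑ i, sw X (3 / 2 * d) x i k * ((C3 * K ^ 2 + 3 * B) * e i) =
      (C3 * K ^ 2 + 3 * B) * (∑ i, cnt X (3 / 2 * d) x i * e i) := by
    rw [Finset.sum_comm, Finset.mul_sum]
    refine Finset.sum_congr rfl fun i _ => ?_
    rw [← Finset.sum_mul]
    have : cnt X (3 / 2 * d) x i = ∑ k, sw X (3 / 2 * d) x i k := rfl
    rw [this]
    ring
  have b4 : ∑ i, cnt X (3 / 2 * d) x i * e i ≤
      ∑ i, cnt X (3 / 2 * d) x i ^ 2 + ∑ i, e i ^ 2 := by
    rw [← Finset.sum_add_distrib]
    refine Finset.sum_le_sum fun i _ => ?_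
    nlinarith [sq_nonneg (cnt X (3 / 2 * d) x i - e i), sq_nonneg (cnt X (3 / 2 * d) x i),
      sq_nonneg (e i)]
  rw [Finset.sum_sub_distrib (f := fun k => ∑ i, sw X (3 / 2 * d) x i k *
    ((C3 * K ^ 2 + 3 * B) * e i)), b3] at b2
  rw [DD_dec X Z a q d x, crossA hd hS fun k h => (hout k h).1]
  have b5 := mul_le_mul_of_nonneg_left b4 (by positivity : 0 ≤ C3 * K ^ 2 + 3 * B)
  linarith

end Pool.Agent.Helper27.HV
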