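import Pool.Agent.Helper27.HV.V2G
import Pool.Agent.Helper82.HV.V2I

/-! Sheet HV, row V2R: the field outside the balls. -/

set_option autoImplicit false

namespace Pool.Agent.Helper27.HV

open MeasureTheory Filter Topology Pool.Agent.Helper95.PW Pool.Agent.Helper95.LN
open Pool.Agent.Helper95.CF Pool.Agent.Helper95.HV Pool.Agent.Helper53.LN
open Pool.Agent.Helper82.PN (pgb_tri)

theorem tq_abs2 {ξ v w : R3} {D D' : ℝ} (hξ : nr ξ ≠ 0) (hv : ∀ m, |v m| ≤ D)
    (hw : ∀ m, |w m| ≤ D') : |Tq ξ v w| ≤ 30 * (D * D') / nr ξ ^ 3 := by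
  have hr : 0 < nr ξ := lt_of_le_of_ne (VIR_nr0 _) (Ne.symm hξ)
  have hD : 0 ≤ D := (abs_nonneg _).trans (hv 0)
  have hD' : 0 ≤ D' := (abs_nonneg _).trans (hw 0)
  have h1 := dot_le (ξ := ξ) hv
  have h2 := dot_le (ξ := ξ) hw
  have h3 : |∑ m, v m * w m| ≤ 3 * (D * D') := by
    refine (Finset.abs_sum_le_sum_abs _ _).trans ?_
    have h : ∀ m, |v m * w m| ≤ D * D' := by
      intro m
      rw [abs_mul]
      exact mul_le_mul (hv m) (hw m) (abs_nonneg _) hD
    calc ∑ m, |v m * w m| ≤ ∑ _m : Fin 3, D * D' := Finset.sum_le_sum fun m _ => h m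
      _ = 3 * (D * D') := by
        rw [Fin.sum_univ_three]
        ring
  unfold Tq
  refine (abs_sub _ _).trans ?_
  have h4 : |3 * (∑ m, v m * ξ m) * (∑ m, w m * ξ m) / nr ξ ^ 5| ≤
      27 * (D * D') / nr ξ ^ 3 := by
    rw [abs_div, abs_of_pos (by positivity : 0 < nr ξ ^ 5), abs_mul, abs_mul,
      abs_of_pos (by norm_num : (0 : ℝ) < 3), div_le_div_iff₀ (by positivity) (by positivity)]
    have h5 : |∑ m, v m * ξ m| * |∑ m, w m * ξ m| ≤ (3 * D * nr ξ) * (3 * D' * nr ξ) :=
      mul_le_mul h1 h2 (abs_nonneg _) (by positivity)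
    calc 3 * |∑ m, v m * ξ m| * |∑ m, w m * ξ m| * nr ξ ^ 3
        = 3 * (|∑ m, v m * ξ m| * |∑ m, w m * ξ m|) * nr ξ ^ 3 := by ring
      _ ≤ 3 * ((3 * D * nr ξ) * (3 * D' * nr ξ)) * nr ξ ^ 3 := by
        refine mul_le_mul_of_nonneg_right ?_ (by positivity)
        exact mul_le_mul_of_nonneg_left h5 (by norm_num)
      _ = 27 * (D * D') * nr ξ ^ 5 := by ring
  have h6 : |(∑ m, v m * w m) / nr ξ ^ 3| ≤ 3 * (D * D') / nr ξ ^ 3 := by
    rw [abs_div, abs_of_pos (by positivity : 0 < nr ξ ^ 3)]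
    exact div_le_div_of_nonneg_right h3 (by positivity)
  calc _ ≤ 27 * (D * D') / nr ξ ^ 3 + 3 * (D * D') / nr ξ ^ 3 := add_le_add h4 h6
    _ = 30 * (D * D') / nr ξ ^ 3 := by ring

theorem scale_mono {g : R3 → ℝ} {K K' ρ : ℝ} (h : Scale g K ρ) (hK : K ≤ K') (hρ : 0 < ρ) :
    Scale g K' ρ where
  sm := h.sm
  cs := h.cs
  d1 := fun i y => (h.d1 i y).trans hK
  d2 := fun i j y => (h.d2 i j y).trans (div_le_div_of_nonneg_right hK hρ.le)
  d3 := fun i j l y => (h.d3 i j l y).trans (div_le_div_of_nonneg_right hK (by positivity))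
  d4 := fun i j l m y => (h.d4 i j l m y).trans (div_le_div_of_nonneg_right hK (by positivity))

theorem pd_const_open {f : R3 → ℝ} {U : Set R3} (hU : IsOpen U) {c : ℝ}
    (h : ∀ y ∈ U, f y = c) {y : R3} (hy : y ∈ U) (l : Fin 3) : pd l f y = 0 := by
  have h1 : f =ᶠ[𝓝 y] fun _ => c := by
    filter_upwards [hU.mem_nhds hy] with z hz
    exact h z hz
  unfold pd
  rw [h1.fderiv_eq]
  simp

theorem nr_cts : Continuous nr := by
  unfold nr
  fun_prop

theorem open_ball (X : R3) (r : ℝ) : IsOpen {y : R3 | nr (y - X) < r} :=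
  isOpen_lt (nr_cts.comp (continuous_id.sub continuous_const)) continuous_const

theorem open_out {M : ℕ} (X : Fin M → R3) (r : ℝ) : IsOpen {y : R3 | ∀ j, r < nr (y - X j)} := by
  have : {y : R3 | ∀ j, r < nr (y - X j)} = ⋂ j, {y : R3 | r < nr (y - X j)} := by
    ext y
    simp
  rw [this]
  exact isOpen_iInter_of_finite fun j =>
    isOpen_lt continuous_const (nr_cts.comp (continuous_id.sub continuous_const))

theorem tq_e3 (ξ : R3) (hξ : nr ξ ≠ 0) :
    ∑ m : Fin 3, Tq ξ (fun i => if i = m then 1 else 0) (fun i => if i = m then 1 else 0) = 0 := by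
  have hr : 0 < nr ξ := lt_of_le_of_ne (VIR_nr0 _) (Ne.symm hξ)
  have h := VIR_nrsq ξ
  unfold Tq
  simp only [Fin.sum_univ_three]
  simp
  field_simp
  rw [h]
  ring

theorem tri' (a b y : R3) : nr (y - a) ≤ nr (y - b) + nr (a - b) := by
  have h := pgb_tri y a b
  rw [VIR_sym b y, VIR_sym b a] at h
  exact h

theorem pd_sub' {f g : R3 → ℝ} (hf : ContDiff ℝ (⊤ : ℕ∞) f) (hg : ContDiff ℝ (⊤ : ℕ∞) g)
    (i : Fin 3) (y : R3) : pd i (fun y => f y - g y) y = pd i f y - pd i g y := by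
  have h1 : DifferentiableAt ℝ f y := hf.differentiable (by simp) y
  have h2 : DifferentiableAt ℝ g y := hg.differentiable (by simp) y
  unfold pd
  rw [fderiv_fun_sub h1 h2]
  rfl

theorem pd_pd_sub {f g : R3 → ℝ} (hf : ContDiff ℝ (⊤ : ℕ∞) f) (hg : ContDiff ℝ (⊤ : ℕ∞) g)
    (l i : Fin 3) (y : R3) :
    pd l (pd i (fun y => f y - g y)) y = pd l (pd i f) y - pd l (pd i g) y := by
  have h : pd i (fun y => f y - g y) = fun y => pd i f y - pd i g y :=
    funext fun y => pd_sub' hf hg i y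
  rw [h]
  exact pd_sub' (pd_sm hf i) (pd_sm hg i) l y

/-- the pair `G`, `N` of fields -/
structure GNf {M : ℕ} (X : Fin M → R3) (ρ L : ℝ) (m : Fin 3) (G N : R3 → ℝ) : Prop where
  Gs : ContDiff ℝ (⊤ : ℕ∞) G
  Ns : ContDiff ℝ (⊤ : ℕ∞) N
  G1 : ∀ y, nr y < L → ∀ i, pd i G y = if i = m then 1 else 0
  N1 : ∀ j y, nr (y - X j) < ρ → ∀ i, pd i N y = if i = m then 1 else 0
  N0 : ∀ y, (∀ j, 2 * ρ < nr (y - X j)) → ∀ i, pd i N y = 0
  inn : ∀ y, ¬ (∀ j, 2 * ρ < nr (y - X j)) → nr y < L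

section gn

variable {n M : ℕ} {X : Fin M → R3} {ρ L : ℝ} {m : Fin 3} {G N : R3 → ℝ}

theorem GNf.G2 (h : GNf X ρ L m G N) {y : R3} (hy : nr y < L) (l i : Fin 3) :
    pd l (pd i G) y = 0 :=
  pd_const_open (U := {y | nr y < L}) (isOpen_lt nr_cts continuous_const)
    (fun z hz => h.G1 z hz i) hy l

theorem GNf.N2 (h : GNf X ρ L m G N) {y : R3} {j : Fin M} (hy : nr (y - X j) < ρ)
    (l i : Fin 3) : pd l (pd i N) y = 0 :=
  pd_const_open (open_ball (X j) ρ) (fun z hz => h.N1 j z hz i) hy l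

theorem GNf.N3 (h : GNf X ρ L m G N) {y : R3} (hy : ∀ j, 2 * ρ < nr (y - X j))
    (l i : Fin 3) : pd l (pd i N) y = 0 :=
  pd_const_open (open_out X (2 * ρ)) (fun z hz => h.N0 z hz i) hy l

theorem GNf.gv_sub (h : GNf X ρ L m G N) (y : R3) :
    gv (fun y => G y - N y) y = gv G y - gv N y :=
  funext fun i => pd_sub' h.Gs h.Ns i y

theorem GNf.gq_sub (h : GNf X ρ L m G N) (y : R3) (i : Fin 3) :
    gq (fun y => G y - N y) y i = gq G y i + gq N y i - pd m (pd i N) y := by
  unfold gq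
  have e : ∀ l, pd l (pd i (fun y => G y - N y)) y * pd l (fun y => G y - N y) y =
      (pd l (pd i G) y - pd l (pd i N) y) * (pd l G y - pd l N y) := by
    intro l
    rw [pd_pd_sub h.Gs h.Ns, pd_sub' h.Gs h.Ns]
  simp only [e]
  by_cases hy : ∀ j, 2 * ρ < nr (y - X j)
  · simp [h.N3 hy, h.N0 y hy]
  · have h1 := h.inn y hy
    simp only [h.G2 h1, h.G1 y h1]
    have : ∀ l, (0 - pd l (pd i N) y) * ((if l = m then 1 else 0) - pd l N y) =
        pd l (pd i N) y * pd l N y - (if l = m then pd l (pd i N) y else 0) := by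
      intro l
      split_ifs <;> ring
    simp only [this, Finset.sum_sub_distrib, Finset.sum_ite_eq', Finset.mem_univ, if_true,
      zero_mul, Finset.sum_const_zero, zero_add]

/-- the field `β` -/
noncomputable def bet (m : Fin 3) (N : R3 → ℝ) (y : R3) : R3 := fun i => pd m (pd i N) y

/-- nuclear part of the correction -/
noncomputable def NB (X : Fin M → R3) (G N : R3 → ℝ) (x : Cf n) (k : Fin n) (j : Fin M) : ℝ :=
  -(Tq (x k - X j) (gv G (x k)) (gv G (x k)) -
    (∑ i, gq G (x k) i * (x k i - X j i)) / nr (x k - X j) ^ 3) +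
  2 * Tq (x k - X j) (gv G (x k)) (gv N (x k))

theorem GNf.split (h : GNf X ρ L m G N) {K : ℝ} (hK : 1 ≤ K) (hρ : 0 < ρ) (hL : 1 ≤ L)
    (hG : Scale G K L) (hN : Scale N K ρ) (Z : Fin M → ℝ) {x : Cf n} (hx : Dist X x) :
    D2 X Z (fun y => G y - N y) x ≤ D2 X Z N x +
      DD X Z (fun _ => 0) (fun k => -bet m N (x k)) x +
      (324 * K ^ 2 + 540 * K ^ 2 / ρ) / L * rep x + ∑ k, ∑ j, Z j * NB X G N x k j := by
  have hL0 : 0 < L := by linarith
  have e1 : ∀ k l, k ≠ l → PA (fun k => gv (fun y => G y - N y) (x k))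
      (fun k => gq (fun y => G y - N y) (x k)) x k l ≤
      PA (fun k => gv N (x k)) (fun k => gq N (x k)) x k l +
      PA (fun _ => 0) (fun k => -bet m N (x k)) x k l +
      (324 * K ^ 2 + 540 * K ^ 2 / ρ) / L * (1 / nr (x k - x l)) := by
    intro k l hkl
    have hr0 := hx.1 k l hkl
    have hr : 0 < nr (x k - x l) := lt_of_le_of_ne (VIR_nr0 _) (Ne.symm hr0)
    have b1 := pair_le hG hL0 hr0
    have b2 := (abs_le.1 (tq_abs2 hr0 (v := gv G (x k) - gv G (x l))
      (w := gv N (x k) - gv N (x l)) (fun i => gv_lip hG (x k) (x l) i)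
      (fun i => gv_lip hN (x k) (x l) i))).1
    have e2 : 30 * (3 * (K / L) * nr (x k - x l) * (3 * (K / ρ) * nr (x k - x l))) /
        nr (x k - x l) ^ 3 = 270 * K ^ 2 / ρ / L * (1 / nr (x k - x l)) := by
      field_simp
      ring
    rw [e2] at b2
    have b3 : 324 * (K ^ 2 / L ^ 2) * (1 / nr (x k - x l)) ≤
        324 * K ^ 2 / L * (1 / nr (x k - x l)) := by
      refine mul_le_mul_of_nonneg_right ?_ (by positivity)
      rw [← mul_div_assoc]
      refine div_le_div_of_nonneg_left (by positivity) hL0 ?_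
      nlinarith
    have e3 : PA (fun k => gv (fun y => G y - N y) (x k))
        (fun k => gq (fun y => G y - N y) (x k)) x k l =
        PA (fun k => gv N (x k)) (fun k => gq N (x k)) x k l +
        PA (fun _ => 0) (fun k => -bet m N (x k)) x k l +
        (Tq (x k - x l) (gv G (x k) - gv G (x l)) (gv G (x k) - gv G (x l)) -
          (∑ i, (gq G (x k) i - gq G (x l) i) * (x k i - x l i)) / nr (x k - x l) ^ 3) -
        2 * Tq (x k - x l) (gv G (x k) - gv G (x l)) (gv N (x k) - gv N (x l)) := by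
      unfold PA
      simp only [h.gv_sub, h.gq_sub]
      have e4 : gv G (x k) - gv N (x k) - (gv G (x l) - gv N (x l)) =
          (gv G (x k) - gv G (x l)) - (gv N (x k) - gv N (x l)) := by abel
      rw [e4, tq_sub, sub_self, tq_zl]
      simp only [Fin.sum_univ_three, Pi.neg_apply, bet]
      ring
    rw [e3]
    have e5 : (324 * K ^ 2 + 540 * K ^ 2 / ρ) / L * (1 / nr (x k - x l)) =
        324 * K ^ 2 / L * (1 / nr (x k - x l)) +
        2 * (270 * K ^ 2 / ρ / L * (1 / nr (x k - x l))) := by ring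
    rw [e5]
    linarith
  have e6 : ∀ k j, NA X (fun k => gv (fun y => G y - N y) (x k))
      (fun k => gq (fun y => G y - N y) (x k)) x k j =
      NA X (fun k => gv N (x k)) (fun k => gq N (x k)) x k j +
      NA X (fun _ => 0) (fun k => -bet m N (x k)) x k j - NB X G N x k j := by
    intro k j
    unfold NA NB
    simp only [h.gv_sub, h.gq_sub]
    rw [tq_sub, tq_zl]
    simp only [Fin.sum_univ_three, Pi.neg_apply, bet]
    ring
  rw [D2_DD, D2_DD]
  unfold DD rep
  simp only [e6]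
  have e7 : (∑ k, ∑ l, if k < l then PA (fun k => gv (fun y => G y - N y) (x k))
      (fun k => gq (fun y => G y - N y) (x k)) x k l else 0) ≤
      (∑ k, ∑ l, if k < l then PA (fun k => gv N (x k)) (fun k => gq N (x k)) x k l else 0) +
      (∑ k, ∑ l, if k < l then PA (fun _ => 0) (fun k => -bet m N (x k)) x k l else 0) +
      (324 * K ^ 2 + 540 * K ^ 2 / ρ) / L *
        ∑ k, ∑ l, (if k < l then 1 / nr (x k - x l) else 0) := by
    rw [Finset.mul_sum, ← Finset.sum_add_distrib, ← Finset.sum_add_distrib]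
    refine Finset.sum_le_sum fun k _ => ?_
    rw [Finset.mul_sum, ← Finset.sum_add_distrib, ← Finset.sum_add_distrib]
    refine Finset.sum_le_sum fun l _ => ?_
    split_ifs with hkl
    · exact e1 k l hkl.ne
    · simp
  have e8 : ∑ k, ∑ j, Z j * (NA X (fun k => gv N (x k)) (fun k => gq N (x k)) x k j +
      NA X (fun _ => 0) (fun k => -bet m N (x k)) x k j - NB X G N x k j) =
      (∑ k, ∑ j, Z j * NA X (fun k => gv N (x k)) (fun k => gq N (x k)) x k j) +
      (∑ k, ∑ j, Z j * NA X (fun _ => 0) (fun k => -bet m N (x k)) x k j) -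
      ∑ k, ∑ j, Z j * NB X G N x k j := by
    simp only [← Finset.sum_add_distrib, ← Finset.sum_sub_distrib]
    refine Finset.sum_congr rfl fun k _ => Finset.sum_congr rfl fun j _ => ?_
    ring
  rw [e8]
  linarith

/-- the `β` terms -/
theorem GNf.beta (h : GNf X ρ L m G N) (h5 : ST_KK) {d K z : ℝ} (hd : 0 < d)
    (hK : 1 ≤ K) (hρ : 0 < ρ) (hρd : 2 * ρ ≤ d / 2) (hN : Scale N K ρ) (hS : Sep X d)
    {Z : Fin M → ℝ} (hZ0 : ∀ j, 0 ≤ Z j) (hZ : ∀ j, Z j ≤ z) {x : Cf n} (hx : Dist X x)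
    {C3 : ℝ} (hC3 : 0 < C3) {e : Fin M → ℝ}
    (he : ∀ i m y, nr (y - X i) ≤ d → |farE d X Z x i m y| ≤ e i)
    (hF : ∀ i (v w y : R3), (∀ m, |v m| ≤ K) → (∀ m, |w m| ≤ K) → nr (y - X i) ≤ d / 2 →
      |(∑ l, if nr (x l - X i) < 3 / 2 * d then 0 else Tq (y - x l) v w) -
        ∑ j, if j = i then 0 else Z j * Tq (y - X j) v w| ≤ C3 * K ^ 2 * e i) :
    DD X Z (fun _ => 0) (fun k => -bet m N (x k)) x ≤
      9 * K / ρ ^ 2 * (Rem (d / 8) x + 16 / d * ∑ i, cnt X (3 / 2 * d) x i ^ 2) +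
      (C3 * K ^ 2 + 3 * (K / ρ)) * (∑ i, cnt X (3 / 2 * d) x i ^ 2 + ∑ i, e i ^ 2) +
      3 * K / ρ ^ 2 * (z * ∑ k, near1 X d (x k)) := by
  have hK0 : 0 ≤ K := by linarith
  have hg := gen (n := n) (Z := Z) (K := K) (B := K / ρ) (A := 9 * K / ρ ^ 2) (T := 0)
    (a := fun _ => 0) (q := fun k => -bet m N (x k)) h5 hd hS hC3 (by positivity) hx
    (by
      intro k l hr0
      have hr : 0 < nr (x k - x l) := lt_of_le_of_ne (VIR_nr0 _) (Ne.symm hr0)
      unfold PA
      rw [sub_self, tq_zl, zero_sub]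
      refine (neg_le_abs _).trans ?_
      rw [abs_div, abs_of_pos (by positivity : 0 < nr (x k - x l) ^ 3)]
      have h1 := dot_le (ξ := x k - x l)
        (v := fun i => (-bet m N (x k)) i - (-bet m N (x l)) i)
        (D := 3 * (K / ρ ^ 2) * nr (x k - x l)) (by
          intro i
          have h2 := lip3 (pd_sm (pd_sm hN.sm i) m) (fun l z => hN.d3 l m i z) (x k) (x l)
          have h3 : (-bet m N (x k)) i - (-bet m N (x l)) i =
              -(pd m (pd i N) (x k) - pd m (pd i N) (x l)) := by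
            simp only [Pi.neg_apply, bet]
            ring
          simp only [h3, abs_neg]
          exact h2)
      rw [div_le_iff₀ (by positivity)]
      refine le_trans h1 (le_of_eq ?_)
      field_simp
      ring)
    (by intro k i; simp [hK0])
    (by
      intro k i
      simp only [Pi.neg_apply, abs_neg, bet]
      exact hN.d2 m i (x k))
    (by
      intro k hk
      refine ⟨rfl, ?_⟩
      funext i
      have h1 : ∀ j, 2 * ρ < nr (x k - X j) := fun j => lt_of_le_of_lt hρd (hk j)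
      simp [bet, h.N3 h1])
    he hF (by
      have : ∀ k l, (if k < l ∧ d < nr (x k - x l) then Tq (x k - x l) (0 : R3) 0 else 0) =
          (0 : ℝ) := by
        intro k l
        rw [tq_zl]
        simp
      simp only [this]
      simp) (by positivity)
  have hn1 : ∀ k j, 0 ≤ (if nr (x k - X j) < d then 1 / nr (x k - X j) else 0) := by
    intro k j
    split_ifs
    · have := VIR_nr0 (x k - X j)
      positivity
    · exact le_rfl
  have hz : ∀ k : Fin n, ∑ i, -(if nr (x k - X i) ≤ d / 2 then Z i *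
      NA X (fun _ => 0) (fun k => -bet m N (x k)) x k i else 0) ≤
      3 * K / ρ ^ 2 * (z * near1 X d (x k)) := by
    intro k
    unfold near1
    rw [Finset.mul_sum, Finset.mul_sum]
    refine Finset.sum_le_sum fun i _ => ?_
    have hz0 : 0 ≤ z := (hZ0 i).trans (hZ i)
    have h0 : 0 ≤ 3 * K / ρ ^ 2 *
        (z * (if nr (x k - X i) < d then 1 / nr (x k - X i) else 0)) := by
      have := hn1 k i
      positivity
    split_ifs with h1 h2 h2
    · have hr : 0 < nr (x k - X i) := lt_of_le_of_ne (VIR_nr0 _) (Ne.symm (hx.2 k i))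
      unfold NA
      rw [tq_zl, zero_sub]
      by_cases hR : nr (x k - X i) < ρ
      · have h3 : ∀ l, (-bet m N (x k)) l = 0 := by
          intro l
          simp [bet, h.N2 hR]
        simp only [h3]
        simp only [zero_mul, Finset.sum_const_zero, zero_div, neg_zero, mul_zero]
        positivity
      · push Not at hR
        have h3 := dot_le (ξ := x k - X i) (v := -bet m N (x k)) (D := K / ρ) (by
          intro l
          simp only [Pi.neg_apply, abs_neg, bet]
          exact hN.d2 m l (x k))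
        have h4 := (abs_le.1 h3).2
        have h5 : (∑ i_1, (-bet m N (x k)) i_1 * (x k i_1 - X i i_1)) / nr (x k - X i) ^ 3 ≤
            3 * K / ρ ^ 2 * (1 / nr (x k - X i)) := by
          rw [div_le_iff₀ (by positivity)]
          refine h4.trans ?_
          have e1 : 3 * K / ρ ^ 2 * (1 / nr (x k - X i)) * nr (x k - X i) ^ 3 =
              3 * (K / ρ) * nr (x k - X i) * (nr (x k - X i) / ρ) := by
            field_simp
          rw [e1]
          have h6 : 1 ≤ nr (x k - X i) / ρ := by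
            rw [le_div_iff₀ hρ, one_mul]
            exact hR
          have h7 : 0 ≤ 3 * (K / ρ) * nr (x k - X i) := by positivity
          nlinarith
        calc -(Z i * -((∑ i_1, (-bet m N (x k)) i_1 * (x k i_1 - X i i_1)) /
              nr (x k - X i) ^ 3)) = Z i * ((∑ i_1, (-bet m N (x k)) i_1 *
              (x k i_1 - X i i_1)) / nr (x k - X i) ^ 3) := by ring
          _ ≤ Z i * (3 * K / ρ ^ 2 * (1 / nr (x k - X i))) :=
              mul_le_mul_of_nonneg_left h5 (hZ0 i)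
          _ ≤ z * (3 * K / ρ ^ 2 * (1 / nr (x k - X i))) :=
              mul_le_mul_of_nonneg_right (hZ i) (by positivity)
          _ = _ := by ring
    · exact absurd (by linarith : nr (x k - X i) < d) h2
    · rw [neg_zero]
      rw [if_pos h2] at h0
      exact h0
    · simp
  have hs := Finset.sum_le_sum fun k (_ : k ∈ Finset.univ) => hz k
  simp only [Finset.sum_neg_distrib] at hs
  rw [← Finset.mul_sum, ← Finset.mul_sum] at hs
  linarith

end gn

/-- nuclear terms of one electron -/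
theorem nb_le {n M : ℕ} {X : Fin M → R3} {ρ L K z d Λ : ℝ} {G N : Fin 3 → R3 → ℝ}
    (h : ∀ m, GNf X ρ L m (G m) (N m)) (hd : 0 < d) (hK : 1 ≤ K) (hρ : 0 < ρ)
    (hρd : 2 * ρ ≤ d / 2) (hL : 1 ≤ L)
    (hG : ∀ m, Scale (G m) K L) (hN : ∀ m, Scale (N m) K ρ) (hS : Sep X d) {Z : Fin M → ℝ}
    (hZ0 : ∀ j, 0 ≤ Z j) (hZ : ∀ j, Z j ≤ z) {x : Cf n} (hx : Dist X x) (hz : 1 ≤ z)
    (hXL : ∀ j, 2 * nr (X j) + 4 ≤ L) (hΛ0 : 0 ≤ Λ)
    (hΛ : ∀ i, ∑ j, (if j = i then 0 else 1 / nr (X i - X j) ^ 3) ≤ Λ) (k : Fin n) :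
    ∑ j, Z j * ∑ m, NB X (G m) (N m) x k j ≤
      414 * K ^ 2 / L * pot X Z (x k) + z * (180 * K / ρ ^ 3 + 1440 * K * Λ) := by
  have hL0 : 0 < L := by linarith
  have hK0 : 0 ≤ K := by linarith
  have hem : ∀ (m i : Fin 3), |(if i = m then (1 : ℝ) else 0)| ≤ 1 := by
    intro m i
    split_ifs <;> simp
  have hG1 : nr (x k) < L → ∀ m, gv (G m) (x k) = fun i => if i = m then 1 else 0 :=
    fun hk m => funext fun i => (h m).G1 (x k) hk i
  -- first part
  have b1 : ∀ j, ∑ m, -(Tq (x k - X j) (gv (G m) (x k)) (gv (G m) (x k)) -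
      (∑ i, gq (G m) (x k) i * (x k i - X j i)) / nr (x k - X j) ^ 3) ≤
      414 * K ^ 2 / L * (1 / nr (x k - X j)) := by
    intro j
    have hr0 := hx.2 k j
    have hr : 0 < nr (x k - X j) := lt_of_le_of_ne (VIR_nr0 _) (Ne.symm hr0)
    by_cases hk : nr (x k) < L
    · have h1 : ∀ m i, gq (G m) (x k) i = 0 := by
        intro m i
        unfold gq
        simp [(h m).G2 hk]
      simp only [h1, zero_mul, Finset.sum_const_zero, zero_div, sub_zero, hG1 hk]
      rw [Finset.sum_neg_distrib, tq_e3 _ hr0, neg_zero]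
      positivity
    · push Not at hk
      have hR : L / 2 ≤ nr (x k - X j) := by
        have h1 := tri' 0 (X j) (x k)
        rw [sub_zero] at h1
        have h2 : nr (0 - X j) = nr (X j) := by
          rw [VIR_sym, sub_zero]
        rw [h2] at h1
        have := hXL j
        linarith
      have hm : ∀ m, -(Tq (x k - X j) (gv (G m) (x k)) (gv (G m) (x k)) -
          (∑ i, gq (G m) (x k) i * (x k i - X j i)) / nr (x k - X j) ^ 3) ≤
          138 * K ^ 2 / L * (1 / nr (x k - X j)) := by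
        intro m
        have t1 := (abs_le.1 (tq_abs hr0 (v := gv (G m) (x k)) (w := gv (G m) (x k))
          (fun i => (hG m).d1 i _) (fun i => (hG m).d1 i _))).1
        have t2 := (abs_le.1 (dot_le (ξ := x k - X j) (v := gq (G m) (x k))
          (gq_le (hG m) hL0 (x k)))).2
        set R := nr (x k - X j) with hRd
        have t3 : 30 * K ^ 2 / R ^ 3 ≤ 120 * K ^ 2 / L * (1 / R) := by
          rw [div_le_iff₀ (by positivity)]
          have e1 : 120 * K ^ 2 / L * (1 / R) * R ^ 3 = 30 * K ^ 2 * (4 * R ^ 2 / L) := by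
            field_simp
            ring
          rw [e1]
          have h2 : 1 ≤ 4 * R ^ 2 / L := by
            rw [le_div_iff₀ hL0]
            nlinarith
          have h3 : 0 ≤ 30 * K ^ 2 := by positivity
          nlinarith
        have t4 : (∑ i, gq (G m) (x k) i * (x k i - X j i)) / R ^ 3 ≤
            18 * K ^ 2 / L * (1 / R) := by
          rw [div_le_iff₀ (by positivity)]
          refine t2.trans ?_
          have e1 : 18 * K ^ 2 / L * (1 / R) * R ^ 3 = 9 * K ^ 2 / L * R * (2 * R) := by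
            field_simp
            ring
          rw [e1]
          have h3 : 0 ≤ 9 * K ^ 2 / L * R := by positivity
          have h4 : 3 * (3 * K ^ 2 / L) * nr (x k - X j) = 9 * K ^ 2 / L * R := by
            rw [← hRd]
            ring
          rw [h4]
          nlinarith
        have e5 : 138 * K ^ 2 / L * (1 / R) = 120 * K ^ 2 / L * (1 / R) +
            18 * K ^ 2 / L * (1 / R) := by ring
        rw [e5]
        linarith
      rw [Fin.sum_univ_three]
      have e6 : 414 * K ^ 2 / L * (1 / nr (x k - X j)) =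
          3 * (138 * K ^ 2 / L * (1 / nr (x k - X j))) := by ring
      rw [e6]
      linarith [hm 0, hm 1, hm 2]
  -- second part
  have b2 : ∑ j, Z j * ∑ m, 2 * Tq (x k - X j) (gv (G m) (x k)) (gv (N m) (x k)) ≤
      z * (180 * K / ρ ^ 3 + 1440 * K * Λ) := by
    by_cases hy : ∀ j, 2 * ρ < nr (x k - X j)
    · have h1 : ∀ m, gv (N m) (x k) = 0 := fun m => funext fun i => (h m).N0 (x k) hy i
      simp only [h1, tq_zr, mul_zero, Finset.sum_const_zero]
      positivity
    · have hk := (h 0).inn (x k) hy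
      push Not at hy
      obtain ⟨i, hi⟩ := hy
      have key : ∀ j, ∑ m, 2 * Tq (x k - X j) (gv (G m) (x k)) (gv (N m) (x k)) ≤
          (if j = i then 180 * K / ρ ^ 3 else 0) +
            1440 * K * (if j = i then 0 else 1 / nr (X i - X j) ^ 3) := by
        intro j
        have hr0 := hx.2 k j
        have hr : 0 < nr (x k - X j) := lt_of_le_of_ne (VIR_nr0 _) (Ne.symm hr0)
        have hm : ∀ m, 2 * Tq (x k - X j) (gv (G m) (x k)) (gv (N m) (x k)) ≤
            60 * K / nr (x k - X j) ^ 3 := by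
          intro m
          have t1 := (abs_le.1 (tq_abs2 hr0 (v := gv (G m) (x k)) (w := gv (N m) (x k))
            (D := 1) (D' := K) (fun i => by rw [hG1 hk m]; exact hem m i)
            (fun i => (hN m).d1 i _))).2
          have e1 : 60 * K / nr (x k - X j) ^ 3 = 2 * (30 * (1 * K) / nr (x k - X j) ^ 3) := by
            ring
          rw [e1]
          linarith
        by_cases hji : j = i
        · subst hji
          rw [if_pos rfl, if_pos rfl, mul_zero, add_zero]
          by_cases hR : nr (x k - X j) < ρ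
          · have h1 : ∀ m, gv (N m) (x k) = fun i => if i = m then 1 else 0 :=
              fun m => funext fun i => (h m).N1 j (x k) hR i
            simp only [h1, hG1 hk]
            rw [← Finset.mul_sum, tq_e3 _ hr0, mul_zero]
            positivity
          · push Not at hR
            have h1 : 60 * K / nr (x k - X j) ^ 3 ≤ 60 * K / ρ ^ 3 :=
              div_le_div_of_nonneg_left (by positivity) (by positivity)
                (pow_le_pow_left₀ hρ.le hR 3)
            have e6 : 180 * K / ρ ^ 3 = 3 * (60 * K / ρ ^ 3) := by ring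
            rw [e6, Fin.sum_univ_three]
            linarith [hm 0, hm 1, hm 2]
        · rw [if_neg hji, if_neg hji, zero_add]
          have h0 := hS i j (fun h => hji h.symm)
          have h2 := pgb_tri (X i) (X j) (x k)
          have hX : 0 < nr (X i - X j) := by linarith
          have h3 : nr (X i - X j) / 2 ≤ nr (x k - X j) := by linarith
          have h1 : 60 * K / nr (x k - X j) ^ 3 ≤ 60 * K / (nr (X i - X j) / 2) ^ 3 :=
            div_le_div_of_nonneg_left (by positivity) (by positivity)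
              (pow_le_pow_left₀ (by positivity) h3 3)
          have e6 : 1440 * K * (1 / nr (X i - X j) ^ 3) =
              3 * (60 * K / (nr (X i - X j) / 2) ^ 3) := by
            field_simp
            ring
          rw [e6, Fin.sum_univ_three]
          linarith [hm 0, hm 1, hm 2]
      have hcc : ∀ j, 0 ≤ (if j = i then 180 * K / ρ ^ 3 else 0) +
            1440 * K * (if j = i then 0 else 1 / nr (X i - X j) ^ 3) := by
        intro j
        have h1 : 0 ≤ (if j = i then 180 * K / ρ ^ 3 else 0) := by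
          split_ifs <;> positivity
        have h2 : 0 ≤ (if j = i then 0 else 1 / nr (X i - X j) ^ 3) := by
          have := VIR_nr0 (X i - X j)
          split_ifs <;> positivity
        positivity
      calc ∑ j, Z j * ∑ m, 2 * Tq (x k - X j) (gv (G m) (x k)) (gv (N m) (x k))
          ≤ ∑ j, z * ((if j = i then 180 * K / ρ ^ 3 else 0) +
            1440 * K * (if j = i then 0 else 1 / nr (X i - X j) ^ 3)) := by
            refine Finset.sum_le_sum fun j _ => ?_
            exact (mul_le_mul_of_nonneg_left (key j) (hZ0 j)).trans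
              (mul_le_mul_of_nonneg_right (hZ j) (hcc j))
        _ = z * (180 * K / ρ ^ 3 + 1440 * K *
            ∑ j, (if j = i then 0 else 1 / nr (X i - X j) ^ 3)) := by
            rw [← Finset.mul_sum, Finset.sum_add_distrib, Finset.sum_ite_eq' Finset.univ i,
              if_pos (Finset.mem_univ i), ← Finset.mul_sum]
        _ ≤ z * (180 * K / ρ ^ 3 + 1440 * K * Λ) := by
            refine mul_le_mul_of_nonneg_left ?_ (by linarith)
            have := mul_le_mul_of_nonneg_left (hΛ i) (by positivity : 0 ≤ 1440 * K)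
            linarith
  have b3 : ∑ j, Z j * ∑ m, -(Tq (x k - X j) (gv (G m) (x k)) (gv (G m) (x k)) -
      (∑ i, gq (G m) (x k) i * (x k i - X j i)) / nr (x k - X j) ^ 3) ≤
      414 * K ^ 2 / L * pot X Z (x k) := by
    unfold pot
    rw [Finset.mul_sum]
    refine Finset.sum_le_sum fun j _ => ?_
    have := mul_le_mul_of_nonneg_left (b1 j) (hZ0 j)
    calc _ ≤ Z j * (414 * K ^ 2 / L * (1 / nr (x k - X j))) := this
      _ = 414 * K ^ 2 / L * (Z j / nr (x k - X j)) := by ring
  have e9 : ∑ j, Z j * ∑ m, NB X (G m) (N m) x k j =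
      ∑ j, Z j * ∑ m, -(Tq (x k - X j) (gv (G m) (x k)) (gv (G m) (x k)) -
      (∑ i, gq (G m) (x k) i * (x k i - X j i)) / nr (x k - X j) ^ 3) +
      ∑ j, Z j * ∑ m, 2 * Tq (x k - X j) (gv (G m) (x k)) (gv (N m) (x k)) := by
    rw [← Finset.sum_add_distrib]
    refine Finset.sum_congr rfl fun j _ => ?_
    rw [← mul_add, ← Finset.sum_add_distrib]
    rfl
  rw [e9]
  linarith

theorem V2R (h1 : ST_NBZ) (h2 : ST_FFZ) (h3 : ST_FGZ) (h4 : ST_DIP) (h5 : ST_KK)
    (h6 : ST_FLD) (h7 : ST_CUT) : ST_V2R := by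
  intro d hd hd1
  obtain ⟨CI, hCI, kI⟩ := Pool.Agent.Helper82.HV.V2I h1 h2 h3 h4 h5 d hd hd1
  obtain ⟨C1, hC1, k1⟩ := h1 d hd hd1
  obtain ⟨C2, hC2, k2⟩ := h2 d hd hd1
  obtain ⟨C3, hC3, k3⟩ := h3 d hd hd1
  obtain ⟨K1, hK1, kF⟩ := h6
  obtain ⟨K2, hK2, kC, -⟩ := h7
  set K : ℝ := max K1 K2 with hKd
  have hK : 1 ≤ K := hK1.trans (le_max_left _ _)
  have hK0 : 0 ≤ K := by linarith
  set ρ : ℝ := d / 8 with hρd
  have hρ : 0 < ρ := by positivity
  set W1 : ℝ := CI * K ^ 2 / ρ ^ 2 + 3 * (9 * K / ρ ^ 2 * (1 + 16 / d * C1) +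
    (C3 * K ^ 2 + 3 * (K / ρ)) * (C1 + C2) + 3 * K / ρ ^ 2) with hW1
  set W2 : ℝ := 180 * K / ρ ^ 3 + 1440 * K with hW2
  set W3 : ℝ := 3 * (324 * K ^ 2 + 540 * K ^ 2 / ρ) + 414 * K ^ 2 with hW3
  have w1 : 0 ≤ W1 := by positivity
  have w2 : 0 ≤ W2 := by positivity
  have w3 : 0 ≤ W3 := by positivity
  refine ⟨W1 + W2 + W3 + 1, by positivity, ?_⟩
  intro z L Λ n M X Z x hD hL hΛ0 hXL hΛ hx
  have hL0 : 0 < L := by linarith
  have hS := hD.sep
  have hZ0 : ∀ j, 0 ≤ Z j := hD.nuc.1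
  have hz := hD.z1
  have hF := fun m => kF M X d ρ ρ m hd hS hρ le_rfl (by rw [hρd]; linarith)
  have hC := fun m => kC m L hL0
  have hGN : ∀ m, GNf X ρ L m (gm m L) (gN X m ρ) := by
    intro m
    refine ⟨(hC m).1.sm, (hF m).1.sm, ?_, (hF m).2.2.1, (hF m).2.2.2.1, ?_⟩
    · intro y hy i
      have e1 : gm m L =ᶠ[𝓝 y] fun y => y m := by
        have hU : IsOpen {y : R3 | nr y < L} := isOpen_lt nr_cts continuous_const
        filter_upwards [hU.mem_nhds hy] with w hw
        exact (hC m).2.1 w (le_of_lt hw)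
      unfold pd
      rw [e1.fderiv_eq]
      have e2 : fderiv ℝ (fun y : R3 => y m) y =
          (ContinuousLinearMap.proj m : R3 →L[ℝ] ℝ) :=
        (ContinuousLinearMap.proj m : R3 →L[ℝ] ℝ).hasFDerivAt.fderiv
      rw [e2]
      show (Pi.single i (1 : ℝ) : R3) m = _
      rw [Pi.single_apply]
      by_cases him : i = m
      · rw [if_pos him, if_pos him.symm]
      · rw [if_neg him, if_neg (fun h => him h.symm)]
    · intro y hy
      push Not at hy
      obtain ⟨j, hj⟩ := hy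
      have t1 := tri' 0 (X j) y
      have t2 : nr (0 - X j) = nr (X j) := by rw [VIR_sym, sub_zero]
      rw [sub_zero, t2] at t1
      have := hXL j
      rw [hρd] at hj
      linarith
  have hGs : ∀ m, Scale (gm m L) K L := fun m => scale_mono (hC m).1 (le_max_right _ _) hL0
  have hNs : ∀ m, Scale (gN X m ρ) K ρ := fun m => scale_mono (hF m).1 (le_max_left _ _) hρ
  have q1 := k1 z n M X Z x hD
  obtain ⟨e, he, q2⟩ := k2 z n M X Z x hD
  have hFG : ∀ i (v w y : R3), (∀ m, |v m| ≤ K) → (∀ m, |w m| ≤ K) → nr (y - X i) ≤ d / 2 →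
      |(∑ l, if nr (x l - X i) < 3 / 2 * d then 0 else Tq (y - x l) v w) -
        ∑ j, if j = i then 0 else Z j * Tq (y - X j) v w| ≤ C3 * K ^ 2 * e i :=
    fun i v w y hv hw hy => k3 n M X Z x i (e i) K v w y hS (fun m y => he i m y) hv hw hy
  have hR : 0 ≤ Rem (d / 8) x := by
    unfold Rem
    refine Finset.sum_nonneg fun k _ => Finset.sum_nonneg fun l _ => ?_
    split_ifs with h
    · have := (h5 (d / 8) (x k - x l) (by positivity)).2.1 (hx.1 k l h.ne)
      linarith
    · exact le_rfl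
  have hDn : 0 ≤ Dn (d / 8) X Z x := VIR_Dn _ _ _ _
  have hN : 0 ≤ ∑ k, near1 X d (x k) := by
    refine Finset.sum_nonneg fun k _ => ?_
    unfold near1
    refine Finset.sum_nonneg fun j _ => ?_
    split_ifs
    · have := VIR_nr0 (x k - X j)
      positivity
    · exact le_rfl
  have hrep : 0 ≤ rep x := by
    unfold rep
    refine Finset.sum_nonneg fun k _ => Finset.sum_nonneg fun l _ => ?_
    split_ifs
    · have := VIR_nr0 (x k - x l)
      positivity
    · exact le_rfl
  have hpot : 0 ≤ ∑ k, pot X Z (x k) := by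
    refine Finset.sum_nonneg fun k _ => ?_
    unfold pot
    refine Finset.sum_nonneg fun j _ => ?_
    exact div_nonneg (hZ0 j) (VIR_nr0 _)
  have hcn : 0 ≤ ∑ i, cnt X (3 / 2 * d) x i ^ 2 := Finset.sum_nonneg fun i _ => sq_nonneg _
  have hM : 0 ≤ z ^ 2 * (M : ℝ) := by positivity
  set W : ℝ := z ^ 2 * M + Dn (d / 8) X Z x with hW
  have hW0 : 0 ≤ W := by positivity
  set Lo : ℝ := Loc d z X Z x with hLo
  have hLW : Lo = W + Rem (d / 8) x + z * ∑ k, near1 X d (x k) := by
    rw [hLo, hW]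
    unfold Loc
    ring
  have hzN : 0 ≤ z * ∑ k, near1 X d (x k) := mul_nonneg (by linarith) hN
  have l1 : W ≤ Lo := by linarith
  have l2 : Rem (d / 8) x ≤ Lo := by linarith
  have l3 : z * ∑ k, near1 X d (x k) ≤ Lo := by linarith
  have l4 : ∑ i, cnt X (3 / 2 * d) x i ^ 2 ≤ C1 * Lo :=
    q1.trans (mul_le_mul_of_nonneg_left l1 hC1.le)
  have l5 : ∑ i, e i ^ 2 ≤ C2 * Lo := q2.trans (mul_le_mul_of_nonneg_left l1 hC2.le)
  have hLo0 : 0 ≤ Lo := by linarith
  -- inner fields
  have s1 : ∑ m, D2 X Z (gN X m ρ) x ≤ CI * K ^ 2 / ρ ^ 2 * Lo := by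
    refine kI z K ρ n M X Z (fun m => gN X m ρ) x hD hK hρ (by rw [hρd]; linarith) hNs
      (fun m => (hF m).2.2.1) (fun m y hy => (hF m).2.2.2.1 y fun j => ?_) hx
    refine lt_of_le_of_lt ?_ (hy j)
    rw [hρd]
    linarith
  -- beta
  have s2 : ∀ m, DD X Z (fun _ => 0) (fun k => -bet m (gN X m ρ) (x k)) x ≤
      (9 * K / ρ ^ 2 * (1 + 16 / d * C1) +
    (C3 * K ^ 2 + 3 * (K / ρ)) * (C1 + C2) + 3 * K / ρ ^ 2) * Lo := by
    intro m
    have b := (hGN m).beta h5 hd hK hρ (by rw [hρd]; linarith) (hNs m) hS hZ0 hD.le hx hC3 he hFG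
    have f1 : 9 * K / ρ ^ 2 * (Rem (d / 8) x + 16 / d * ∑ i, cnt X (3 / 2 * d) x i ^ 2) ≤
        9 * K / ρ ^ 2 * (Lo + 16 / d * (C1 * Lo)) := by
      refine mul_le_mul_of_nonneg_left ?_ (by positivity)
      exact add_le_add l2 (mul_le_mul_of_nonneg_left l4 (by positivity))
    have f2 : (C3 * K ^ 2 + 3 * (K / ρ)) * (∑ i, cnt X (3 / 2 * d) x i ^ 2 + ∑ i, e i ^ 2) ≤
        (C3 * K ^ 2 + 3 * (K / ρ)) * (C1 * Lo + C2 * Lo) :=
      mul_le_mul_of_nonneg_left (add_le_add l4 l5) (by positivity)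
    have f3 : 3 * K / ρ ^ 2 * (z * ∑ k, near1 X d (x k)) ≤ 3 * K / ρ ^ 2 * Lo :=
      mul_le_mul_of_nonneg_left l3 (by positivity)
    refine (b.trans (add_le_add (add_le_add f1 f2) f3)).trans (le_of_eq ?_)
    ring
  -- nuclei
  have s3 : ∑ k, ∑ j, Z j * ∑ m, NB X (gm m L) (gN X m ρ) x k j ≤
      414 * K ^ 2 / L * ∑ k, pot X Z (x k) + n * (z * (180 * K / ρ ^ 3 + 1440 * K * Λ)) := by
    have b := Finset.sum_le_sum fun k (_ : k ∈ Finset.univ) =>
      nb_le (G := fun m => gm m L) (N := fun m => gN X m ρ) hGN hd hK hρ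
        (by rw [hρd]; linarith) hL hGs hNs hS hZ0 hD.le hx hz hXL hΛ0 hΛ k
    refine b.trans (le_of_eq ?_)
    rw [Finset.sum_add_distrib, ← Finset.mul_sum, Finset.sum_const, Finset.card_univ,
      Fintype.card_fin, nsmul_eq_mul]
  have s4 : ∑ m, D2 X Z (fun y => gm m L y - gN X m ρ y) x ≤
      ∑ m, (D2 X Z (gN X m ρ) x +
        (9 * K / ρ ^ 2 * (1 + 16 / d * C1) +
          (C3 * K ^ 2 + 3 * (K / ρ)) * (C1 + C2) + 3 * K / ρ ^ 2) * Lo +
        (324 * K ^ 2 + 540 * K ^ 2 / ρ) / L * rep x +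
        ∑ k, ∑ j, Z j * NB X (gm m L) (gN X m ρ) x k j) := by
    refine Finset.sum_le_sum fun m _ => ?_
    have b := (hGN m).split hK hρ hL (hGs m) (hNs m) Z hx
    have := s2 m
    linarith
  have s5 : ∑ m : Fin 3, ∑ k, ∑ j, Z j * NB X (gm m L) (gN X m ρ) x k j =
      ∑ k, ∑ j, Z j * ∑ m, NB X (gm m L) (gN X m ρ) x k j := by
    rw [Finset.sum_comm]
    refine Finset.sum_congr rfl fun k _ => ?_
    rw [Finset.sum_comm]
    exact Finset.sum_congr rfl fun j _ => (Finset.mul_sum _ _ _).symm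
  rw [Finset.sum_add_distrib, Finset.sum_add_distrib, Finset.sum_add_distrib, s5,
    Finset.sum_const, Finset.sum_const, Finset.card_univ, Fintype.card_fin] at s4
  simp only [nsmul_eq_mul, Nat.cast_ofNat] at s4
  have t1 : n * (z * (180 * K / ρ ^ 3 + 1440 * K * Λ)) ≤ W2 * (z * (1 + Λ) * n) := by
    have h1 : 180 * K / ρ ^ 3 + 1440 * K * Λ ≤ W2 * (1 + Λ) := by
      rw [hW2]
      have : 0 ≤ 180 * K / ρ ^ 3 * Λ := by positivity
      nlinarith
    have h2 := mul_le_mul_of_nonneg_left h1 (by positivity : (0 : ℝ) ≤ n * z)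
    calc _ = n * z * (180 * K / ρ ^ 3 + 1440 * K * Λ) := by ring
      _ ≤ _ := h2
      _ = _ := by ring
  have t2 : W3 / L * (rep x + ∑ k, pot X Z (x k)) =
      (3 * ((324 * K ^ 2 + 540 * K ^ 2 / ρ) / L * rep x) + 414 * K ^ 2 / L * ∑ k, pot X Z (x k)) +
      ((3 * (324 * K ^ 2 + 540 * K ^ 2 / ρ)) / L * (∑ k, pot X Z (x k)) +
        414 * K ^ 2 / L * rep x) := by
    rw [hW3]
    ring
  have t3 : 0 ≤ (3 * (324 * K ^ 2 + 540 * K ^ 2 / ρ)) / L * (∑ k, pot X Z (x k)) +
        414 * K ^ 2 / L * rep x := by positivity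
  have hzn : 0 ≤ z * (1 + Λ) * n := by positivity
  have t4 : W1 * Lo + W2 * (z * (1 + Λ) * n) + W3 / L * (rep x + ∑ k, pot X Z (x k)) ≤
      (W1 + W2 + W3 + 1) * (Lo + z * (1 + Λ) * n) +
      (W1 + W2 + W3 + 1) / L * (rep x + ∑ k, pot X Z (x k)) := by
    have a1 : W1 * Lo ≤ (W1 + W2 + W3 + 1) * Lo :=
      mul_le_mul_of_nonneg_right (by linarith) hLo0
    have a2 : W2 * (z * (1 + Λ) * n) ≤ (W1 + W2 + W3 + 1) * (z * (1 + Λ) * n) :=
      mul_le_mul_of_nonneg_right (by linarith) hzn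
    have a3 : W3 / L * (rep x + ∑ k, pot X Z (x k)) ≤
        (W1 + W2 + W3 + 1) / L * (rep x + ∑ k, pot X Z (x k)) :=
      mul_le_mul_of_nonneg_right (div_le_div_of_nonneg_right (by linarith) hL0.le)
        (by linarith)
    linarith
  refine le_trans ?_ t4
  have t5 : W1 * Lo = CI * K ^ 2 / ρ ^ 2 * Lo + 3 * ((9 * K / ρ ^ 2 * (1 + 16 / d * C1) +
          (C3 * K ^ 2 + 3 * (K / ρ)) * (C1 + C2) + 3 * K / ρ ^ 2) * Lo) := by
    rw [hW1]
    ring
  rw [t5]
  linarith

end Pool.Agent.Helper27.HV
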