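import Pool.Agent.Helper95.HV.Stmts
import Pool.Agent.Helper53.LN.VIR

/-! Sheet HV, row V2S: second derivative of the potential along fields supported in shells. -/

set_option autoImplicit false

namespace Pool.Agent.Helper27.HV

open MeasureTheory Filter Pool.Agent.Helper95.PW Pool.Agent.Helper95.LN Pool.Agent.Helper95.CF
open Pool.Agent.Helper95.HV Pool.Agent.Helper53.LN
open Pool.Agent.Helper82.PN (pgb_tri)

theorem tq_sym (ξ v w : R3) : Tq (-ξ) v w = Tq ξ v w := by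
  have h : nr (-ξ) = nr ξ := by
    unfold nr
    congr 1
    simp only [Pi.neg_apply]
    ring
  unfold Tq
  rw [h]
  simp only [Fin.sum_univ_three, Pi.neg_apply]
  ring

theorem tq_sym' (x y v w : R3) : Tq (x - y) v w = Tq (y - x) v w := by
  rw [← tq_sym (y - x)]
  congr 1
  abel

theorem tq_sub (ξ v w : R3) : Tq ξ (v - w) (v - w) = Tq ξ v v + Tq ξ w w - 2 * Tq ξ v w := by
  unfold Tq
  simp only [Fin.sum_univ_three, Pi.sub_apply]
  ring

theorem tq_zl (ξ w : R3) : Tq ξ 0 w = 0 := by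
  unfold Tq
  simp [Fin.sum_univ_three]

theorem tq_zr (ξ w : R3) : Tq ξ w 0 = 0 := by
  unfold Tq
  simp [Fin.sum_univ_three]

theorem tq_z (v w : R3) : Tq 0 v w = 0 := by
  unfold Tq
  have : nr (0 : R3) = 0 := by simp [nr]
  rw [this]
  simp

theorem dot_le {ξ v : R3} {D : ℝ} (hv : ∀ m, |v m| ≤ D) : |∑ m, v m * ξ m| ≤ 3 * D * nr ξ := by
  have hD : 0 ≤ D := (abs_nonneg _).trans (hv 0)
  refine (Finset.abs_sum_le_sum_abs _ _).trans ?_
  have h : ∀ m, |v m * ξ m| ≤ D * nr ξ := by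
    intro m
    rw [abs_mul]
    exact mul_le_mul (hv m) (VIR_comp ξ m) (abs_nonneg _) hD
  calc ∑ m, |v m * ξ m| ≤ ∑ _m : Fin 3, D * nr ξ := Finset.sum_le_sum fun m _ => h m
    _ = 3 * D * nr ξ := by
      rw [Fin.sum_univ_three]
      ring

theorem tq_abs {ξ v w : R3} {D : ℝ} (hξ : nr ξ ≠ 0) (hv : ∀ m, |v m| ≤ D) (hw : ∀ m, |w m| ≤ D) :
    |Tq ξ v w| ≤ 30 * D ^ 2 / nr ξ ^ 3 := by
  have hr : 0 < nr ξ := lt_of_le_of_ne (VIR_nr0 _) (Ne.symm hξ)
  have hD : 0 ≤ D := (abs_nonneg _).trans (hv 0)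
  have h1 := dot_le (ξ := ξ) hv
  have h2 := dot_le (ξ := ξ) hw
  have h3 : |∑ m, v m * w m| ≤ 3 * D ^ 2 := by
    refine (Finset.abs_sum_le_sum_abs _ _).trans ?_
    have h : ∀ m, |v m * w m| ≤ D ^ 2 := by
      intro m
      rw [abs_mul, pow_two]
      exact mul_le_mul (hv m) (hw m) (abs_nonneg _) hD
    calc ∑ m, |v m * w m| ≤ ∑ _m : Fin 3, D ^ 2 := Finset.sum_le_sum fun m _ => h m
      _ = 3 * D ^ 2 := by
        rw [Fin.sum_univ_three]
        ring
  unfold Tq
  refine (abs_sub _ _).trans ?_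
  have h4 : |3 * (∑ m, v m * ξ m) * (∑ m, w m * ξ m) / nr ξ ^ 5| ≤ 27 * D ^ 2 / nr ξ ^ 3 := by
    rw [abs_div, abs_of_pos (by positivity : 0 < nr ξ ^ 5), abs_mul, abs_mul,
      abs_of_pos (by norm_num : (0 : ℝ) < 3), div_le_div_iff₀ (by positivity) (by positivity)]
    have h5 : |∑ m, v m * ξ m| * |∑ m, w m * ξ m| ≤ (3 * D * nr ξ) * (3 * D * nr ξ) :=
      mul_le_mul h1 h2 (abs_nonneg _) (by positivity)
    calc 3 * |∑ m, v m * ξ m| * |∑ m, w m * ξ m| * nr ξ ^ 3
        = 3 * (|∑ m, v m * ξ m| * |∑ m, w m * ξ m|) * nr ξ ^ 3 := by ring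
      _ ≤ 3 * ((3 * D * nr ξ) * (3 * D * nr ξ)) * nr ξ ^ 3 := by
        refine mul_le_mul_of_nonneg_right ?_ (by positivity)
        exact mul_le_mul_of_nonneg_left h5 (by norm_num)
      _ = 27 * D ^ 2 * nr ξ ^ 5 := by ring
  have h6 : |(∑ m, v m * w m) / nr ξ ^ 3| ≤ 3 * D ^ 2 / nr ξ ^ 3 := by
    rw [abs_div, abs_of_pos (by positivity : 0 < nr ξ ^ 3)]
    exact div_le_div_of_nonneg_right h3 (by positivity)
  calc _ ≤ 27 * D ^ 2 / nr ξ ^ 3 + 3 * D ^ 2 / nr ξ ^ 3 := add_le_add h4 h6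
    _ = 30 * D ^ 2 / nr ξ ^ 3 := by ring

theorem lip3 {f : R3 → ℝ} (hf : ContDiff ℝ (⊤ : ℕ∞) f) {B : ℝ} (hB : ∀ i y, |pd i f y| ≤ B)
    (x y : R3) : |f x - f y| ≤ 3 * B * nr (x - y) := by
  have hB0 : 0 ≤ B := (abs_nonneg _).trans (hB 0 0)
  have hd : Differentiable ℝ f := hf.differentiable (by simp)
  have hn : ∀ z, ‖fderiv ℝ f z‖ ≤ 3 * B := by
    intro z
    refine ContinuousLinearMap.opNorm_le_bound _ (by positivity) fun v => ?_
    have e : fderiv ℝ f z v = ∑ i, v i * pd i f z := by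
      have h1 : v = ∑ i, v i • (Pi.single i (1 : ℝ) : R3) := by
        funext j
        simp [Finset.sum_apply, Pi.single_apply]
      conv_lhs => rw [h1]
      rw [map_sum]
      refine Finset.sum_congr rfl fun i _ => ?_
      rw [map_smul, smul_eq_mul]
      rfl
    rw [e, Real.norm_eq_abs]
    refine (Finset.abs_sum_le_sum_abs _ _).trans ?_
    have h : ∀ m, |v m * pd m f z| ≤ ‖v‖ * B := by
      intro m
      rw [abs_mul]
      refine mul_le_mul ?_ (hB m z) (abs_nonneg _) (norm_nonneg _)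
      have := norm_le_pi_norm v m
      rwa [Real.norm_eq_abs] at this
    calc ∑ m, |v m * pd m f z| ≤ ∑ _m : Fin 3, ‖v‖ * B := Finset.sum_le_sum fun m _ => h m
      _ = 3 * B * ‖v‖ := by
        rw [Fin.sum_univ_three]
        ring
  have h2 := Convex.norm_image_sub_le_of_norm_fderiv_le (s := Set.univ) (x := y) (y := x)
    (fun z _ => hd z) (fun z _ => hn z) convex_univ (Set.mem_univ _) (Set.mem_univ _)
  rw [Real.norm_eq_abs] at h2
  refine h2.trans (mul_le_mul_of_nonneg_left ?_ (by positivity))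
  rw [pi_norm_le_iff_of_nonneg (VIR_nr0 _)]
  intro i
  rw [Real.norm_eq_abs]
  exact VIR_comp (x - y) i

theorem pd_sm {f : R3 → ℝ} (hf : ContDiff ℝ (⊤ : ℕ∞) f) (i : Fin 3) :
    ContDiff ℝ (⊤ : ℕ∞) (pd i f) := by
  have h : ContDiff ℝ (⊤ : ℕ∞) (fderiv ℝ f) := hf.fderiv_right (by simp)
  exact h.clm_apply contDiff_const

section scale

variable {g : R3 → ℝ} {K ρ : ℝ}

theorem gq_le (hg : Scale g K ρ) (hρ : 0 < ρ) (y : R3) (i : Fin 3) :
    |gq g y i| ≤ 3 * K ^ 2 / ρ := by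
  have hK : 0 ≤ K := (abs_nonneg _).trans (hg.d1 0 0)
  unfold gq
  refine (Finset.abs_sum_le_sum_abs _ _).trans ?_
  have h : ∀ l, |pd l (pd i g) y * pd l g y| ≤ K / ρ * K := by
    intro l
    rw [abs_mul]
    exact mul_le_mul (hg.d2 l i y) (hg.d1 l y) (abs_nonneg _) (by positivity)
  calc _ ≤ ∑ _l : Fin 3, K / ρ * K := Finset.sum_le_sum fun l _ => h l
    _ = 3 * K ^ 2 / ρ := by
      rw [Fin.sum_univ_three]
      ring

theorem gv_lip (hg : Scale g K ρ) (x y : R3) (i : Fin 3) :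
    |gv g x i - gv g y i| ≤ 3 * (K / ρ) * nr (x - y) :=
  lip3 (pd_sm hg.sm i) (fun l z => hg.d2 l i z) x y

theorem gq_lip (hg : Scale g K ρ) (hρ : 0 < ρ) (x y : R3) (i : Fin 3) :
    |gq g x i - gq g y i| ≤ 18 * (K ^ 2 / ρ ^ 2) * nr (x - y) := by
  have hK : 0 ≤ K := (abs_nonneg _).trans (hg.d1 0 0)
  have hr := VIR_nr0 (x - y)
  unfold gq
  rw [← Finset.sum_sub_distrib]
  refine (Finset.abs_sum_le_sum_abs _ _).trans ?_
  have h : ∀ l, |pd l (pd i g) x * pd l g x - pd l (pd i g) y * pd l g y| ≤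
      6 * (K ^ 2 / ρ ^ 2) * nr (x - y) := by
    intro l
    have h1 := lip3 (pd_sm (pd_sm hg.sm i) l) (fun m z => hg.d3 m l i z) x y
    have h2 := lip3 (pd_sm hg.sm l) (fun m z => hg.d2 m l z) x y
    have e : pd l (pd i g) x * pd l g x - pd l (pd i g) y * pd l g y =
        (pd l (pd i g) x - pd l (pd i g) y) * pd l g x +
          pd l (pd i g) y * (pd l g x - pd l g y) := by ring
    rw [e]
    refine (abs_add_le _ _).trans ?_
    rw [abs_mul, abs_mul]
    have h3 := mul_le_mul h1 (hg.d1 l x) (abs_nonneg _) (by positivity)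
    have h4 := mul_le_mul (hg.d2 l i y) h2 (abs_nonneg _) (by positivity)
    refine (add_le_add h3 h4).trans (le_of_eq ?_)
    field_simp
    ring
  calc _ ≤ ∑ _l : Fin 3, 6 * (K ^ 2 / ρ ^ 2) * nr (x - y) := Finset.sum_le_sum fun l _ => h l
    _ = 18 * (K ^ 2 / ρ ^ 2) * nr (x - y) := by
      rw [Fin.sum_univ_three]
      ring

/-- near pairs -/
theorem pair_le (hg : Scale g K ρ) (hρ : 0 < ρ) {x y : R3} (hxy : nr (x - y) ≠ 0) :
    Tq (x - y) (gv g x - gv g y) (gv g x - gv g y) -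
      (∑ i, (gq g x i - gq g y i) * (x i - y i)) / nr (x - y) ^ 3 ≤
      324 * (K ^ 2 / ρ ^ 2) * (1 / nr (x - y)) := by
  have hK : 0 ≤ K := (abs_nonneg _).trans (hg.d1 0 0)
  have hr : 0 < nr (x - y) := lt_of_le_of_ne (VIR_nr0 _) (Ne.symm hxy)
  have h1 := tq_abs hxy (v := gv g x - gv g y) (w := gv g x - gv g y)
    (fun m => gv_lip hg x y m) (fun m => gv_lip hg x y m)
  have h2 := dot_le (ξ := x - y) (v := fun i => gq g x i - gq g y i) (fun m => gq_lip hg hρ x y m)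
  have h3 : |(∑ i, (gq g x i - gq g y i) * (x i - y i)) / nr (x - y) ^ 3| ≤
      54 * (K ^ 2 / ρ ^ 2) * (1 / nr (x - y)) := by
    rw [abs_div, abs_of_pos (by positivity : 0 < nr (x - y) ^ 3), div_le_iff₀ (by positivity)]
    refine h2.trans (le_of_eq ?_)
    field_simp
    ring
  have h4 : 30 * (3 * (K / ρ) * nr (x - y)) ^ 2 / nr (x - y) ^ 3 =
      270 * (K ^ 2 / ρ ^ 2) * (1 / nr (x - y)) := by
    field_simp
    ring
  rw [h4] at h1
  have h5 := (abs_le.1 h1).2
  have h6 := (abs_le.1 h3).1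
  linarith

end scale

section main

variable {n M : ℕ}

/-- near weight -/
noncomputable def ww (X : Fin M → R3) (d : ℝ) (x : Cf n) (k l : Fin n) : ℝ :=
  ∑ i, sw X (3 / 2 * d) x i k * sw X (3 / 2 * d) x i l

/-- self terms -/
noncomputable def SS (g : R3 → ℝ) (x : Cf n) (k l : Fin n) : ℝ :=
  Tq (x k - x l) (gv g (x k)) (gv g (x k)) -
    (∑ i, gq g (x k) i * (x k i - x l i)) / nr (x k - x l) ^ 3

/-- nuclear terms -/
noncomputable def NN (X : Fin M → R3) (g : R3 → ℝ) (x : Cf n) (k : Fin n) (j : Fin M) : ℝ :=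
  Tq (x k - X j) (gv g (x k)) (gv g (x k)) -
    (∑ i, gq g (x k) i * (x k i - X j i)) / nr (x k - X j) ^ 3

/-- pairs -/
noncomputable def PQ (g : R3 → ℝ) (x : Cf n) (k l : Fin n) : ℝ :=
  Tq (x k - x l) (gv g (x k) - gv g (x l)) (gv g (x k) - gv g (x l)) -
      (∑ i, (gq g (x k) i - gq g (x l) i) * (x k i - x l i)) / nr (x k - x l) ^ 3

theorem SS_self (g : R3 → ℝ) (x : Cf n) (k : Fin n) : SS g x k k = 0 := by
  unfold SS
  rw [sub_self, tq_z]
  simp

theorem PQ_eq (g : R3 → ℝ) (x : Cf n) (k l : Fin n) :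
    PQ g x k l = SS g x k l + SS g x l k - 2 * Tq (x k - x l) (gv g (x k)) (gv g (x l)) := by
  unfold PQ SS
  rw [tq_sub, tq_sym' (x l) (x k), VIR_sym (x l) (x k)]
  simp only [Fin.sum_univ_three]
  ring

theorem ww_symm (X : Fin M → R3) (d : ℝ) (x : Cf n) (k l : Fin n) :
    ww X d x k l = ww X d x l k := by
  unfold ww
  exact Finset.sum_congr rfl fun i _ => mul_comm _ _

theorem ww_nonneg (X : Fin M → R3) (d : ℝ) (x : Cf n) (k l : Fin n) : 0 ≤ ww X d x k l :=
  Finset.sum_nonneg fun i _ => mul_nonneg (sw_nonneg _ _ _ _ _) (sw_nonneg _ _ _ _ _)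

theorem ww_le {X : Fin M → R3} {d : ℝ} (hd : 0 < d) (hS : Sep X d) (x : Cf n) (k l : Fin n) :
    ww X d x k l ≤ 1 := by
  refine le_trans ?_ (VIR_le1 hd hS x k)
  refine Finset.sum_le_sum fun i _ => ?_
  have := mul_le_mul_of_nonneg_left (sw_le X (3 / 2 * d) x i l) (sw_nonneg X (3 / 2 * d) x i k)
  linarith

theorem sw_other {X : Fin M → R3} {d : ℝ} (hd : 0 < d) (hS : Sep X d) {x : Cf n} {i j : Fin M}
    {k : Fin n} (hi : nr (x k - X i) < 3 / 2 * d) (hj : j ≠ i) :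
    sw X (3 / 2 * d) x j k = 0 := by
  unfold sw
  rw [if_neg]
  intro h
  have h1 := hS j i hj
  have h2 := pgb_tri (X j) (X i) (x k)
  linarith

theorem ww_eq {X : Fin M → R3} {d : ℝ} (hd : 0 < d) (hS : Sep X d) {x : Cf n} {i : Fin M}
    {k : Fin n} (hi : nr (x k - X i) < 3 / 2 * d) (l : Fin n) :
    ww X d x k l = sw X (3 / 2 * d) x i l := by
  unfold ww
  rw [Finset.sum_eq_single i]
  · have : sw X (3 / 2 * d) x i k = 1 := by
      unfold sw
      rw [if_pos hi]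
    rw [this, one_mul]
  · intro j _ hj
    rw [sw_other hd hS hi hj, zero_mul]
  · intro h
    exact absurd (Finset.mem_univ _) h

theorem ww_sum (X : Fin M → R3) (d : ℝ) (x : Cf n) :
    ∑ k, ∑ l, ww X d x k l = ∑ i, cnt X (3 / 2 * d) x i ^ 2 := by
  have e1 : ∀ i, cnt X (3 / 2 * d) x i ^ 2 =
      ∑ k, ∑ l, sw X (3 / 2 * d) x i k * sw X (3 / 2 * d) x i l := by
    intro i
    rw [pow_two, ← Finset.sum_mul_sum]
    rfl
  simp_rw [e1]
  unfold ww
  rw [Finset.sum_comm (s := Finset.univ (α := Fin M))]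
  refine Finset.sum_congr rfl fun k _ => ?_
  rw [Finset.sum_comm]

theorem D2_dec (X : Fin M → R3) (Z : Fin M → ℝ) (g : R3 → ℝ) (d : ℝ) (x : Cf n) :
    D2 X Z g x = (∑ k, ∑ l, if k < l then ww X d x k l * PQ g x k l else 0) +
      ∑ k, (∑ l, (1 - ww X d x k l) * SS g x k l - ∑ j, Z j * NN X g x k j) -
      2 * ∑ k, ∑ l, if k < l then (1 - ww X d x k l) *
        Tq (x k - x l) (gv g (x k)) (gv g (x l)) else 0 := by
  have e1 : D2 X Z g x = (∑ k, ∑ l, if k < l then PQ g x k l else 0) -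
      ∑ k, ∑ j, Z j * NN X g x k j := by
    unfold D2 PQ NN
    rw [sub_eq_add_neg, ← Finset.sum_neg_distrib]
    congr 1
    refine Finset.sum_congr rfl fun k _ => ?_
    rw [← Finset.sum_neg_distrib]
    refine Finset.sum_congr rfl fun j _ => ?_
    ring
  have e2 := VIR_pairs (fun k l => (1 - ww X d x k l) * SS g x k l)
    (fun k => by simp only [SS_self, mul_zero])
  rw [e1, Finset.sum_sub_distrib, ← e2, Finset.mul_sum]
  have e3 : ∀ k, ∑ l, (if k < l then PQ g x k l else 0) =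
      (∑ l, if k < l then ww X d x k l * PQ g x k l else 0) +
      (∑ l, if k < l then (1 - ww X d x k l) * SS g x k l +
        (1 - ww X d x l k) * SS g x l k else 0) -
      2 * ∑ l, (if k < l then (1 - ww X d x k l) *
        Tq (x k - x l) (gv g (x k)) (gv g (x l)) else 0) := by
    intro k
    rw [Finset.mul_sum, ← Finset.sum_add_distrib, ← Finset.sum_sub_distrib]
    refine Finset.sum_congr rfl fun l _ => ?_
    split_ifs
    · rw [ww_symm X d x l k]
      have := PQ_eq g x k l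
      linear_combination (1 - ww X d x k l) * this
    · ring
  rw [Finset.sum_congr rfl fun k _ => e3 k, Finset.sum_sub_distrib, Finset.sum_add_distrib]
  ring

theorem far_id (X : Fin M → R3) (Z : Fin M → ℝ) (g : R3 → ℝ) (d : ℝ) (x : Cf n) (k : Fin n)
    (i : Fin M) :
    ∑ l, (1 - sw X (3 / 2 * d) x i l) * SS g x k l - ∑ j, Z j * NN X g x k j =
      ((∑ l, if nr (x l - X i) < 3 / 2 * d then 0 else
          Tq (x k - x l) (gv g (x k)) (gv g (x k))) -
        ∑ j, if j = i then 0 else Z j * Tq (x k - X j) (gv g (x k)) (gv g (x k))) -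
      (∑ m, gq g (x k) m * farE d X Z x i m (x k)) - Z i * NN X g x k i := by
  have e1 : ∑ m, gq g (x k) m * farE d X Z x i m (x k) =
      (∑ l, if nr (x l - X i) < 3 / 2 * d then 0 else
        (∑ i, gq g (x k) i * (x k i - x l i)) / nr (x k - x l) ^ 3) -
      ∑ j, if j = i then 0 else
        Z j * ((∑ i, gq g (x k) i * (x k i - X j i)) / nr (x k - X j) ^ 3) := by
    unfold farE
    simp only [mul_sub, Finset.sum_sub_distrib, Finset.mul_sum]
    congr 1
    · rw [Finset.sum_comm]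
      refine Finset.sum_congr rfl fun l _ => ?_
      split_ifs
      · simp
      · simp only [Fin.sum_univ_three]
        ring
    · rw [Finset.sum_comm]
      refine Finset.sum_congr rfl fun j _ => ?_
      split_ifs
      · simp
      · simp only [Fin.sum_univ_three]
        ring
  have e2 : ∑ l, (1 - sw X (3 / 2 * d) x i l) * SS g x k l =
      (∑ l, if nr (x l - X i) < 3 / 2 * d then 0 else
        Tq (x k - x l) (gv g (x k)) (gv g (x k))) -
      (∑ l, if nr (x l - X i) < 3 / 2 * d then 0 else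
        (∑ i, gq g (x k) i * (x k i - x l i)) / nr (x k - x l) ^ 3) := by
    rw [← Finset.sum_sub_distrib]
    refine Finset.sum_congr rfl fun l _ => ?_
    unfold sw SS
    split_ifs <;> ring
  have e3 : ∑ j, Z j * NN X g x k j = Z i * NN X g x k i +
      ((∑ j, if j = i then 0 else Z j * Tq (x k - X j) (gv g (x k)) (gv g (x k))) -
      ∑ j, if j = i then 0 else
        Z j * ((∑ i, gq g (x k) i * (x k i - X j i)) / nr (x k - X j) ^ 3)) := by
    have h1 : ∀ j, Z j * NN X g x k j = (if j = i then Z i * NN X g x k i else 0) +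
        ((if j = i then 0 else Z j * Tq (x k - X j) (gv g (x k)) (gv g (x k))) -
        (if j = i then 0 else
        Z j * ((∑ i, gq g (x k) i * (x k i - X j i)) / nr (x k - X j) ^ 3))) := by
      intro j
      split_ifs with h
      · subst h
        ring
      · unfold NN
        ring
    rw [Finset.sum_congr rfl (fun j _ => h1 j), Finset.sum_add_distrib, Finset.sum_sub_distrib]
    simp
  linarith

/-- near pairs -/
theorem near_sum (h4 : ST_KK) {X : Fin M → R3} {d : ℝ} (hd : 0 < d) (hS : Sep X d) {g : R3 → ℝ}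
    {K ρ : ℝ} (hg : Scale g K ρ) (hρ : 0 < ρ) {x : Cf n} (hx : Dist X x) :
    (∑ k, ∑ l, if k < l then ww X d x k l * PQ g x k l else 0) ≤
      324 * (K ^ 2 / ρ ^ 2) * (Rem (d / 8) x + 16 / d * ∑ i, cnt X (3 / 2 * d) x i ^ 2) := by
  set A : ℝ := 324 * (K ^ 2 / ρ ^ 2) with hA
  have hA0 : 0 ≤ A := by positivity
  rw [← ww_sum]
  unfold Rem
  rw [Finset.mul_sum, ← Finset.sum_add_distrib, Finset.mul_sum]
  refine Finset.sum_le_sum fun k _ => ?_
  rw [Finset.mul_sum, ← Finset.sum_add_distrib, Finset.mul_sum]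
  refine Finset.sum_le_sum fun l _ => ?_
  have hN0 := ww_nonneg X d x k l
  have hN1 := ww_le hd hS x k l
  set N := ww X d x k l with hNdef
  have hd16 : 0 < 16 / d := by positivity
  by_cases hkl : k < l
  · rw [if_pos hkl, if_pos hkl]
    have hr0 := hx.1 k l hkl.ne
    have hr : 0 < nr (x k - x l) := lt_of_le_of_ne (VIR_nr0 _) (Ne.symm hr0)
    have hP : PQ g x k l ≤ A * (1 / nr (x k - x l)) := pair_le hg hρ hr0
    obtain ⟨-, hK2, hK3, hK4⟩ := h4 (d / 8) (x k - x l) (by positivity)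
    have hK2' := hK2 hr0
    have e16 : 2 / (d / 8) = 16 / d := by
      field_simp
      norm_num
    rw [e16] at hK4
    have h7 : N * PQ g x k l ≤ N * (A * (1 / nr (x k - x l))) :=
      mul_le_mul_of_nonneg_left hP hN0
    refine h7.trans ?_
    have h8 : N * (1 / nr (x k - x l)) ≤
        1 / nr (x k - x l) - Kf (d / 8) (x k - x l) + 16 / d * N := by
      have h9 : N * (1 / nr (x k - x l) - Kf (d / 8) (x k - x l)) ≤
          1 * (1 / nr (x k - x l) - Kf (d / 8) (x k - x l)) :=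
        mul_le_mul_of_nonneg_right hN1 (by linarith)
      have h10 : N * Kf (d / 8) (x k - x l) ≤ N * (16 / d) :=
        mul_le_mul_of_nonneg_left hK4 hN0
      linarith
    have h11 := mul_le_mul_of_nonneg_left h8 hA0
    linarith
  · rw [if_neg hkl, if_neg hkl]
    have : 0 ≤ A * (0 + 16 / d * N) := by positivity
    exact this

theorem van {X : Fin M → R3} {d ρ : ℝ} {g : R3 → ℝ}
    (hin : ∀ j y, nr (y - X j) < ρ → ∀ i, pd i g y = 0)
    (hout : ∀ y, (∀ j, d / 2 < nr (y - X j)) → ∀ i, pd i g y = 0) (y : R3) :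
    (∃ i, nr (y - X i) ≤ d / 2 ∧ ρ ≤ nr (y - X i)) ∨ (gv g y = 0 ∧ gq g y = 0) := by
  by_cases h : ∃ i, nr (y - X i) ≤ d / 2 ∧ ρ ≤ nr (y - X i)
  · exact Or.inl h
  · right
    have h0 : ∀ i, pd i g y = 0 := by
      by_cases h1 : ∃ j, nr (y - X j) < ρ
      · obtain ⟨j, hj⟩ := h1
        exact hin j y hj
      · push Not at h1
        refine hout y fun j => ?_
        by_contra hcon
        exact h ⟨j, not_lt.1 hcon, h1 j⟩
    constructor
    · funext i
      exact h0 i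
    · funext i
      unfold gq
      simp [h0]

/-- one electron -/
theorem one_le {X : Fin M → R3} {d z C4 : ℝ} (hd : 0 < d) (hd1 : d ≤ 1) (hz : 1 ≤ z)
    (hC4 : 0 < C4) (hS : Sep X d)
    {Z : Fin M → ℝ} (hZ0 : ∀ j, 0 ≤ Z j) (hZ : ∀ j, Z j ≤ z) {g : R3 → ℝ}
    {K ρ : ℝ} (hg : Scale g K ρ) (hρ : 0 < ρ) (hρd : ρ ≤ d) {x : Cf n} (hx : Dist X x)
    (hin : ∀ j y, nr (y - X j) < ρ → ∀ i, pd i g y = 0)
    (hout : ∀ y, (∀ j, d / 2 < nr (y - X j)) → ∀ i, pd i g y = 0)
    {e : Fin M → ℝ} (he : ∀ i m y, nr (y - X i) ≤ d → |farE d X Z x i m y| ≤ e i)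
    (hF : ∀ i (v w y : R3), (∀ m, |v m| ≤ K) → (∀ m, |w m| ≤ K) → nr (y - X i) ≤ d / 2 →
      |(∑ l, if nr (x l - X i) < 3 / 2 * d then 0 else Tq (y - x l) v w) -
        ∑ j, if j = i then 0 else Z j * Tq (y - X j) v w| ≤ C4 * K ^ 2 * e i) (k : Fin n) :
    ∑ l, (1 - ww X d x k l) * SS g x k l - ∑ j, Z j * NN X g x k j ≤
      ∑ i, sw X (3 / 2 * d) x i k * ((C4 + 9) * (K ^ 2 / ρ ^ 2) * e i) +
        39 * (K ^ 2 / ρ ^ 2) * (z * near1 X d (x k)) := by
  have hK : 0 ≤ K := (abs_nonneg _).trans (hg.d1 0 0)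
  have hρ1 : ρ ≤ 1 := hρd.trans hd1
  have he0 : ∀ i, 0 ≤ e i := by
    intro i
    refine le_trans (abs_nonneg _) (he i 0 (X i) ?_)
    rw [sub_self]
    have : nr (0 : R3) = 0 := by simp [nr]
    rw [this]
    exact hd.le
  have hQ0 : 0 ≤ K ^ 2 / ρ ^ 2 := by positivity
  have hn1 : ∀ j, 0 ≤ (if nr (x k - X j) < d then 1 / nr (x k - X j) else 0) := by
    intro j
    split_ifs
    · have := VIR_nr0 (x k - X j)
      positivity
    · exact le_rfl
  have hsum0 : 0 ≤ ∑ i, sw X (3 / 2 * d) x i k * ((C4 + 9) * (K ^ 2 / ρ ^ 2) * e i) :=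
    Finset.sum_nonneg fun i _ => mul_nonneg (sw_nonneg _ _ _ _ _)
      (mul_nonneg (by positivity) (he0 i))
  have hn0 : 0 ≤ near1 X d (x k) := Finset.sum_nonneg fun j _ => hn1 j
  rcases van hin hout (x k) with ⟨i, hi1, hi2⟩ | ⟨ha, hq⟩
  · have hi : nr (x k - X i) < 3 / 2 * d := by linarith
    have e0 : ∑ l, (1 - ww X d x k l) * SS g x k l =
        ∑ l, (1 - sw X (3 / 2 * d) x i l) * SS g x k l :=
      Finset.sum_congr rfl fun l _ => by rw [ww_eq hd hS hi l]
    rw [e0, far_id X Z g d x k i]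
    set R := nr (x k - X i) with hR
    have hR0 : 0 < R := lt_of_le_of_ne (VIR_nr0 _) (Ne.symm (hx.2 k i))
    have b1 := (abs_le.1 (hF i (gv g (x k)) (gv g (x k)) (x k) (fun m => hg.d1 m _)
      (fun m => hg.d1 m _) hi1)).2
    have b2 : -(∑ m, gq g (x k) m * farE d X Z x i m (x k)) ≤ 9 * (K ^ 2 / ρ ^ 2) * e i := by
      have hm : ∀ m, -(gq g (x k) m * farE d X Z x i m (x k)) ≤ 3 * (K ^ 2 / ρ ^ 2) * e i := by
        intro m
        refine (neg_le_abs _).trans ?_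
        rw [abs_mul]
        refine mul_le_mul ?_ (he i m _ (by linarith)) (abs_nonneg _) (by positivity)
        refine (gq_le hg hρ (x k) m).trans ?_
        have h1 : 3 * (K ^ 2 / ρ ^ 2) = 3 * K ^ 2 / ρ * (1 / ρ) := by
          field_simp
        rw [h1]
        have h2 : 1 ≤ 1 / ρ := by
          rw [le_div_iff₀ hρ]
          linarith
        have h3 : 0 ≤ 3 * K ^ 2 / ρ := by positivity
        nlinarith
      rw [Fin.sum_univ_three]
      linarith [hm 0, hm 1, hm 2]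
    have b3 : -(NN X g x k i) ≤ 39 * (K ^ 2 / ρ ^ 2) * (1 / R) := by
      have t1 := (abs_le.1 (tq_abs (hx.2 k i) (v := gv g (x k)) (w := gv g (x k))
        (fun m => hg.d1 m _) (fun m => hg.d1 m _))).1
      have t2 := (abs_le.1 (dot_le (ξ := x k - X i) (v := gq g (x k)) (gq_le hg hρ (x k)))).2
      have t3 : 30 * K ^ 2 / R ^ 3 ≤ 30 * (K ^ 2 / ρ ^ 2) * (1 / R) := by
        rw [div_le_iff₀ (by positivity)]
        have h1 : 30 * (K ^ 2 / ρ ^ 2) * (1 / R) * R ^ 3 = 30 * K ^ 2 * (R ^ 2 / ρ ^ 2) := by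
          field_simp
        rw [h1]
        have h2 : 1 ≤ R ^ 2 / ρ ^ 2 := by
          rw [le_div_iff₀ (by positivity), one_mul]
          exact pow_le_pow_left₀ hρ.le hi2 2
        have h3 : 0 ≤ 30 * K ^ 2 := by positivity
        nlinarith
      have t4 : (∑ i_1, gq g (x k) i_1 * (x k i_1 - X i i_1)) / R ^ 3 ≤
          9 * (K ^ 2 / ρ ^ 2) * (1 / R) := by
        rw [div_le_iff₀ (by positivity)]
        refine t2.trans ?_
        have h1 : 9 * (K ^ 2 / ρ ^ 2) * (1 / R) * R ^ 3 = 9 * (K ^ 2 / ρ) * R * (R / ρ) := by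
          field_simp
        rw [h1]
        have h2 : 1 ≤ R / ρ := by
          rw [le_div_iff₀ hρ, one_mul]
          exact hi2
        have h3 : 0 ≤ 9 * (K ^ 2 / ρ) * R := by positivity
        have h4 : 3 * (3 * K ^ 2 / ρ) * nr (x k - X i) = 9 * (K ^ 2 / ρ) * R := by
          rw [← hR]
          ring
        rw [h4]
        nlinarith
      unfold NN
      rw [← hR]
      linarith
    have b4 : -(Z i * NN X g x k i) ≤ 39 * (K ^ 2 / ρ ^ 2) * (z * (1 / R)) := by
      have h1 := mul_le_mul_of_nonneg_left b3 (hZ0 i)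
      have h2 : Z i * (39 * (K ^ 2 / ρ ^ 2) * (1 / R)) ≤ z * (39 * (K ^ 2 / ρ ^ 2) * (1 / R)) :=
        mul_le_mul_of_nonneg_right (hZ i) (by positivity)
      linarith
    have b5 : 1 / R ≤ near1 X d (x k) := by
      have := Finset.single_le_sum (fun j _ => hn1 j) (Finset.mem_univ i)
      rw [if_pos (by rw [← hR]; linarith)] at this
      exact this
    have b6 : sw X (3 / 2 * d) x i k * ((C4 + 9) * (K ^ 2 / ρ ^ 2) * e i) ≤
        ∑ i, sw X (3 / 2 * d) x i k * ((C4 + 9) * (K ^ 2 / ρ ^ 2) * e i) :=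
      Finset.single_le_sum (f := fun i => sw X (3 / 2 * d) x i k *
        ((C4 + 9) * (K ^ 2 / ρ ^ 2) * e i)) (fun i _ => mul_nonneg (sw_nonneg _ _ _ _ _)
        (mul_nonneg (by positivity) (he0 i))) (Finset.mem_univ i)
    have b7 : sw X (3 / 2 * d) x i k = 1 := by
      unfold sw
      rw [if_pos hi]
    rw [b7, one_mul] at b6
    have b8 : C4 * K ^ 2 * e i ≤ C4 * (K ^ 2 / ρ ^ 2) * e i := by
      refine mul_le_mul_of_nonneg_right ?_ (he0 i)
      refine mul_le_mul_of_nonneg_left ?_ hC4.le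
      rw [le_div_iff₀ (by positivity)]
      have : ρ ^ 2 ≤ 1 := by nlinarith
      nlinarith [sq_nonneg K]
    have b9 : 39 * (K ^ 2 / ρ ^ 2) * (z * (1 / R)) ≤
        39 * (K ^ 2 / ρ ^ 2) * (z * near1 X d (x k)) := by
      refine mul_le_mul_of_nonneg_left ?_ (by positivity)
      exact mul_le_mul_of_nonneg_left b5 (by linarith)
    linarith
  · have h1 : ∀ l, SS g x k l = 0 := by
      intro l
      unfold SS
      rw [ha, hq, tq_zl]
      simp
    have h2 : ∀ j, NN X g x k j = 0 := by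
      intro j
      unfold NN
      rw [ha, hq, tq_zl]
      simp
    simp only [h1, h2, mul_zero, Finset.sum_const_zero, sub_zero]
    have : 0 ≤ 39 * (K ^ 2 / ρ ^ 2) * (z * near1 X d (x k)) := by
      have : 0 ≤ z * near1 X d (x k) := mul_nonneg (by linarith) hn0
      positivity
    linarith

/-- cross terms -/
theorem cross_eq {X : Fin M → R3} {d ρ : ℝ} (hd : 0 < d) (hS : Sep X d) {g : R3 → ℝ}
    (hin : ∀ j y, nr (y - X j) < ρ → ∀ i, pd i g y = 0)
    (hout : ∀ y, (∀ j, d / 2 < nr (y - X j)) → ∀ i, pd i g y = 0) (x : Cf n) :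
    (∑ k, ∑ l, if k < l then (1 - ww X d x k l) *
        Tq (x k - x l) (gv g (x k)) (gv g (x l)) else 0) =
      ∑ k, ∑ l, if k < l ∧ d < nr (x k - x l) then
        Tq (x k - x l) (gv g (x k)) (gv g (x l)) else 0 := by
  refine Finset.sum_congr rfl fun k _ => Finset.sum_congr rfl fun l _ => ?_
  by_cases hkl : k < l
  · rw [if_pos hkl]
    rcases van hin hout (x k) with ⟨i, hi1, -⟩ | ⟨ha, -⟩
    · rcases van hin hout (x l) with ⟨i', hi1', -⟩ | ⟨ha, -⟩
      · have hi : nr (x k - X i) < 3 / 2 * d := by linarith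
        rw [ww_eq hd hS hi l]
        by_cases hii : i' = i
        · subst hii
          have h1 : sw X (3 / 2 * d) x i' l = 1 := by
            unfold sw
            rw [if_pos (by linarith)]
          have h2 := pgb_tri (x k) (x l) (X i')
          rw [VIR_sym (X i') (x k), VIR_sym (X i') (x l)] at h2
          rw [h1, if_neg (by rintro ⟨-, h3⟩; linarith)]
          ring
        · have h1 : sw X (3 / 2 * d) x i l = 0 :=
            sw_other hd hS (i := i') (by linarith) (fun h => hii h.symm)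
          have h2 : d < nr (x k - x l) := by
            have h3 := hS i i' (fun h => hii h.symm)
            have h4 := pgb_tri (X i) (X i') (x k)
            have h5 := pgb_tri (x k) (X i') (x l)
            have h6 := VIR_sym (x l) (x k)
            linarith
          rw [h1, if_pos ⟨hkl, h2⟩]
          ring
      · rw [ha, tq_zr]
        simp
    · rw [ha, tq_zl]
      simp
  · rw [if_neg hkl, if_neg (fun h => hkl h.1)]

end main

theorem V2S (h1 : ST_NBZ) (h2 : ST_FFZ) (h3 : ST_FGZ) (h4 : ST_DIP) (h5 : ST_KK) : ST_V2S := by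
  intro d hd hd1
  obtain ⟨C1, hC1, k1⟩ := h1 d hd hd1
  obtain ⟨C2, hC2, k2⟩ := h2 d hd hd1
  obtain ⟨C3, hC3, k3⟩ := h3 d hd hd1
  obtain ⟨C4, hC4, k4⟩ := h4 d hd hd1
  refine ⟨324 + 324 * (16 / d) * C1 + (C3 + 9) * (C1 + C2) + 39 + 2 * C4 * C1, by positivity, ?_⟩
  intro z K ρ n M X Z g x hD hK hρ hρd hg hin hout hx
  have hS := hD.sep
  have hZ0 : ∀ j, 0 ≤ Z j := hD.nuc.1
  have hz := hD.z1
  have q1 := k1 z n M X Z x hD
  obtain ⟨e, he, q2⟩ := k2 z n M X Z x hD
  have hF : ∀ i (v w y : R3), (∀ m, |v m| ≤ K) → (∀ m, |w m| ≤ K) → nr (y - X i) ≤ d / 2 →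
      |(∑ l, if nr (x l - X i) < 3 / 2 * d then 0 else Tq (y - x l) v w) -
        ∑ j, if j = i then 0 else Z j * Tq (y - X j) v w| ≤ C3 * K ^ 2 * e i :=
    fun i v w y hv hw hy => k3 n M X Z x i (e i) K v w y hS (fun m y => he i m y) hv hw hy
  have he0 : ∀ i, 0 ≤ e i := by
    intro i
    refine le_trans (abs_nonneg _) (he i 0 (X i) ?_)
    rw [sub_self]
    have : nr (0 : R3) = 0 := by simp [nr]
    rw [this]
    exact hd.le
  set Q : ℝ := K ^ 2 / ρ ^ 2 with hQ
  have hQ0 : 0 ≤ Q := by positivity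
  have hρ1 : ρ ≤ 1 := hρd.trans hd1
  have hKQ : K ^ 2 ≤ Q := by
    rw [hQ, le_div_iff₀ (by positivity)]
    have : ρ ^ 2 ≤ 1 := by nlinarith
    nlinarith [sq_nonneg K]
  have hR : 0 ≤ Rem (d / 8) x := by
    unfold Rem
    refine Finset.sum_nonneg fun k _ => Finset.sum_nonneg fun l _ => ?_
    split_ifs with h
    · have := (h5 (d / 8) (x k - x l) (by positivity)).2.1 (hx.1 k l h.ne)
      linarith
    · exact le_rfl
  have hDn : 0 ≤ Dn (d / 8) X Z x := VIR_Dn _ _ _ _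
  have hN : 0 ≤ ∑ k, near1 X d (x k) := by
    refine Finset.sum_nonneg fun k _ => ?_
    unfold near1
    refine Finset.sum_nonneg fun j _ => ?_
    split_ifs
    · have := VIR_nr0 (x k - X j)
      positivity
    · exact le_rfl
  have hcn : 0 ≤ ∑ i, cnt X (3 / 2 * d) x i ^ 2 := Finset.sum_nonneg fun i _ => sq_nonneg _
  have hM : 0 ≤ z ^ 2 * (M : ℝ) := by positivity
  have b1 := near_sum h5 hd hS hg hρ hx
  have b2 : ∑ k, (∑ l, (1 - ww X d x k l) * SS g x k l - ∑ j, Z j * NN X g x k j) ≤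
      ∑ k, (∑ i, sw X (3 / 2 * d) x i k * ((C3 + 9) * Q * e i) +
        39 * Q * (z * near1 X d (x k))) :=
    Finset.sum_le_sum fun k _ => one_le hd hd1 hz hC3 hS hZ0 hD.le hg hρ hρd hx hin hout he hF k
  have b3 : ∑ k, (∑ i, sw X (3 / 2 * d) x i k * ((C3 + 9) * Q * e i) +
        39 * Q * (z * near1 X d (x k))) =
      (C3 + 9) * Q * (∑ i, cnt X (3 / 2 * d) x i * e i) +
        39 * Q * (z * ∑ k, near1 X d (x k)) := by
    rw [Finset.sum_add_distrib, Finset.sum_comm, Finset.mul_sum, Finset.mul_sum, Finset.mul_sum]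
    congr 1
    refine Finset.sum_congr rfl fun i _ => ?_
    rw [← Finset.sum_mul]
    have : cnt X (3 / 2 * d) x i = ∑ k, sw X (3 / 2 * d) x i k := rfl
    rw [this]
    ring
  have b4 : ∑ i, cnt X (3 / 2 * d) x i * e i ≤
      ∑ i, cnt X (3 / 2 * d) x i ^ 2 + ∑ i, e i ^ 2 := by
    rw [← Finset.sum_add_distrib]
    refine Finset.sum_le_sum fun i _ => ?_
    nlinarith [sq_nonneg (cnt X (3 / 2 * d) x i - e i), sq_nonneg (cnt X (3 / 2 * d) x i),
      sq_nonneg (e i)]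
  have b5 := k4 n M X x (fun k => gv g (x k)) K hS (fun k m => hg.d1 m _)
    (fun k h => funext fun i => hout (x k) h i)
  rw [← cross_eq hd hS hin hout x] at b5
  rw [D2_dec X Z g d x]
  set W : ℝ := z ^ 2 * M + Dn (d / 8) X Z x with hW
  have hW0 : 0 ≤ W := by positivity
  set L : ℝ := Loc d z X Z x with hL
  have hLW : L = W + Rem (d / 8) x + z * ∑ k, near1 X d (x k) := by
    rw [hL, hW]
    unfold Loc
    ring
  have hzN : 0 ≤ z * ∑ k, near1 X d (x k) := mul_nonneg (by linarith) hN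
  have l1 : W ≤ L := by linarith
  have l2 : Rem (d / 8) x ≤ L := by linarith
  have l3 : z * ∑ k, near1 X d (x k) ≤ L := by linarith
  have l4 : ∑ i, cnt X (3 / 2 * d) x i ^ 2 ≤ C1 * L :=
    q1.trans (mul_le_mul_of_nonneg_left l1 hC1.le)
  have l5 : ∑ i, e i ^ 2 ≤ C2 * L := q2.trans (mul_le_mul_of_nonneg_left l1 hC2.le)
  have hL0 : 0 ≤ L := by linarith
  have f1 : 324 * Q * (Rem (d / 8) x + 16 / d * ∑ i, cnt X (3 / 2 * d) x i ^ 2) ≤
      324 * Q * (L + 16 / d * (C1 * L)) := by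
    refine mul_le_mul_of_nonneg_left ?_ (by positivity)
    exact add_le_add l2 (mul_le_mul_of_nonneg_left l4 (by positivity))
  have f2 : (C3 + 9) * Q * (∑ i, cnt X (3 / 2 * d) x i * e i) ≤
      (C3 + 9) * Q * (C1 * L + C2 * L) := by
    refine mul_le_mul_of_nonneg_left ?_ (by positivity)
    exact b4.trans (add_le_add l4 l5)
  have f3 : 39 * Q * (z * ∑ k, near1 X d (x k)) ≤ 39 * Q * L :=
    mul_le_mul_of_nonneg_left l3 (by positivity)
  have f4 : C4 * K ^ 2 * ∑ i, cnt X (3 / 2 * d) x i ^ 2 ≤ C4 * Q * (C1 * L) := by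
    refine mul_le_mul ?_ l4 hcn (by positivity)
    exact mul_le_mul_of_nonneg_left hKQ hC4.le
  have f5 : (324 + 324 * (16 / d) * C1 + (C3 + 9) * (C1 + C2) + 39 + 2 * C4 * C1) * K ^ 2 /
      ρ ^ 2 * L = 324 * Q * (L + 16 / d * (C1 * L)) + (C3 + 9) * Q * (C1 * L + C2 * L) +
      39 * Q * L + 2 * (C4 * Q * (C1 * L)) := by
    rw [hQ]
    ring
  rw [f5]
  rw [b3] at b2
  linarith

end Pool.Agent.Helper27.HV
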